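import Mathlib

/-!
Einstein metrics (Regge calculus) on simplicial complexes of dimension `n`.
-/

namespace Pool.Agent.H50En

open Real Finset

variable {V : Type} [DecidableEq V]

/-- The Cayley–Menger matrix of the simplex with vertex set `s` and squared edge lengths `z`. -/
noncomputable def CM (z : Sym2 V → ℝ) (s : Finset V) : Matrix (Option s) (Option s) ℝ :=
  Matrix.of fun a b => match a, b with
    | none, none => 0
    | none, some _ => 1
    | some _, none => 1
    | some i, some j => if i = j then 0 else z s(i.1, j.1)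

/-- The volume of the simplex with vertex set `s` (`k + 1` vertices): the square root of
`|det CM| / (2 ^ k (k!) ^ 2)`. -/
noncomputable def vol (z : Sym2 V → ℝ) (s : Finset V) : ℝ :=
  √(|(CM z s).det| / (2 ^ (#s - 1) * ((#s - 1).factorial : ℝ) ^ 2))

/-- The entries of the inverse of the Cayley–Menger matrix. -/
noncomputable def Q (z : Sym2 V → ℝ) (s : Finset V) (k l : V) : ℝ :=
  if h : k ∈ s ∧ l ∈ s then (CM z s)⁻¹ (some ⟨k, h.1⟩) (some ⟨l, h.2⟩) else 0

/-- The interior dihedral angle of the simplex `T` at the face opposite to its vertices `k`, `l`. -/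
noncomputable def ang (z : Sym2 V → ℝ) (T : Finset V) (k l : V) : ℝ :=
  arccos (Q z T k l / √(Q z T k k * Q z T l l))

/-- A finite pure `n`-dimensional complex: the set `K` of its `n`-simplices. -/
def Pure (n : ℕ) (K : Finset (Finset V)) : Prop := ∀ T ∈ K, #T = n + 1

/-- The simplices with `m` vertices. -/
def faces (K : Finset (Finset V)) (m : ℕ) : Finset (Finset V) := K.biUnion (powersetCard m)

/-- The curvature at the `(n-2)`-simplex `σ`, in units of `2 π` (each dihedral angle occurs twice in
the double sum). -/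
noncomputable def curv (K : Finset (Finset V)) (z : Sym2 V → ℝ) (σ : Finset V) : ℝ :=
  1 - ∑ T ∈ K, ∑ k ∈ T, ∑ l ∈ T, if k ≠ l ∧ (T.erase k).erase l = σ then ang z T k l / (4 * π) else 0

/-- The total scalar curvature of the `n`-dimensional complex `K`. -/
noncomputable def totalCurv (n : ℕ) (K : Finset (Finset V)) (z : Sym2 V → ℝ) : ℝ :=
  ∑ σ ∈ faces K (n - 1), curv K z σ * vol z σ

/-- `z` is a metric: every `n`-simplex is realised by a nondegenerate simplex of `ℝⁿ`. -/
def IsMetric (n : ℕ) (K : Finset (Finset V)) (z : Sym2 V → ℝ) : Prop :=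
  ∀ T ∈ K, ∃ p : T → EuclideanSpace ℝ (Fin n), AffineIndependent ℝ p ∧
    ∀ a b : T, a ≠ b → Dist.dist (p a) (p b) ^ 2 = z s(a.1, b.1)

/-- `z` is an Einstein metric (of the first kind). -/
def IsEinstein (n : ℕ) (K : Finset (Finset V)) (z : Sym2 V → ℝ) : Prop :=
  IsMetric n K z ∧ ∃ c : ℝ, ∀ x y : V, x ≠ y → {x, y} ∈ faces K 2 →
    HasDerivAt (fun u => totalCurv n K (Function.update z s(x, y) u)) (c * z s(x, y)) (z s(x, y))

/-- The subdivision of `K` in which every `n`-simplex `T` is coned from a new vertex `inr T`. -/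
def cone (K : Finset (Finset V)) : Finset (Finset (V ⊕ Finset V)) :=
  K.biUnion fun T => T.image fun v => insert (Sum.inr T) ((T.erase v).map ⟨Sum.inl, Sum.inl_injective⟩)

/-- The derivative of the total curvature (Regge's formula). -/
noncomputable def ein (n : ℕ) (K : Finset (Finset V)) (z : Sym2 V → ℝ) (x y : V) : ℝ :=
  ∑ σ ∈ (faces K (n - 1)).filter (fun σ => x ∈ σ ∧ y ∈ σ), curv K z σ * (vol z σ * Q z σ x y)

end Pool.Agent.H50En
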