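import Pool.Agent.H50En.Defs

namespace Pool.Agent.H50En.Cnt

open Real Finset Pool.Agent.H50En

variable {V : Type} [DecidableEq V]

/-- E0: double counting. -/
theorem count {n s d : ℕ} (hn : 4 ≤ n) {K : Finset (Finset V)} (hK : Pure n K)
    (h3 : ∀ σ ∈ faces K (n - 1), 3 ≤ #(K.filter (σ ⊆ ·))) {e : Finset V} (he : #e = 2)
    (hs : #((faces K (n - 1)).filter (e ⊆ ·)) = s) (hd : #(K.filter (e ⊆ ·)) = d) :
    3 * s ≤ (n - 1).choose 2 * d := by
  classical
  let A := (faces K (n - 1)).filter (e ⊆ ·)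
  let B := K.filter (e ⊆ ·)
  have h := Finset.sum_card_bipartiteAbove_eq_sum_card_bipartiteBelow
    (s := A) (t := B) (fun σ T => σ ⊆ T)
  have h1 : 3 * s ≤ ∑ σ ∈ A, #(bipartiteAbove (fun σ T => σ ⊆ T) B σ) := by
    have h2 : A.card * 3 ≤ ∑ σ ∈ A, #(bipartiteAbove (fun σ T => σ ⊆ T) B σ) := by
      rw [← smul_eq_mul]
      apply Finset.card_nsmul_le_sum
      intro σ hσ
      have hσ' := Finset.mem_filter.1 hσ
      refine (h3 σ hσ'.1).trans (Finset.card_le_card ?_)
      intro T hT
      have hT' := Finset.mem_filter.1 hT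
      exact Finset.mem_filter.2
        ⟨Finset.mem_filter.2 ⟨hT'.1, hσ'.2.trans hT'.2⟩, hT'.2⟩
    have h4 : A.card = s := hs
    rw [h4] at h2
    omega
  have h2 : ∑ T ∈ B, #(bipartiteBelow (fun σ T => σ ⊆ T) A T) ≤ (n - 1).choose 2 * d := by
    have h4 : ∑ T ∈ B, #(bipartiteBelow (fun σ T => σ ⊆ T) A T) ≤ B.card • (n - 1).choose 2 := by
      apply Finset.sum_le_card_nsmul
      intro T hT
      have hT' := Finset.mem_filter.1 hT
      have hcT : #T = n + 1 := hK T hT'.1
      have hcard : #(powersetCard 2 (T \ e)) = (n - 1).choose 2 := by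
        rw [card_powersetCard, card_sdiff_of_subset hT'.2, hcT, he]
        congr 1
      rw [← hcard]
      apply Finset.card_le_card_of_injOn (fun σ => T \ σ)
      · intro σ hσ
        have hσ' := Finset.mem_filter.1 hσ
        have hσA := Finset.mem_filter.1 hσ'.1
        have hσc : #σ = n - 1 := by
          obtain ⟨T', hT1, hT2⟩ := Finset.mem_biUnion.1 hσA.1
          exact (Finset.mem_powersetCard.1 hT2).2
        apply Finset.mem_coe.2
        rw [mem_powersetCard]
        refine ⟨Finset.sdiff_subset_sdiff (Finset.Subset.refl T) hσA.2, ?_⟩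
        rw [card_sdiff_of_subset hσ'.2, hcT, hσc]
        omega
      · intro σ hσ τ hτ heq
        have hσ' := (Finset.mem_filter.1 (Finset.mem_coe.1 hσ)).2
        have hτ' := (Finset.mem_filter.1 (Finset.mem_coe.1 hτ)).2
        have heq' : T \ σ = T \ τ := heq
        calc σ = T \ (T \ σ) := (Finset.sdiff_sdiff_eq_self hσ').symm
          _ = T \ (T \ τ) := by rw [heq']
          _ = τ := Finset.sdiff_sdiff_eq_self hτ'
    have h5 : B.card = d := hd
    rw [h5, smul_eq_mul, mul_comm] at h4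
    exact h4
  rw [h] at h1
  exact h1.trans h2

end Pool.Agent.H50En.Cnt
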