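import Pool.Agent.H50En.ExDefs

/-! The boundary of the simplex. -/

namespace Pool.Agent.H50En.Ex1

open Finset

theorem count_pow {α : Type} [DecidableEq α] {T e : Finset α} (heT : e ⊆ T) {k : ℕ}
    (hk : #e ≤ k) :
    #((T.powersetCard k).filter (e ⊆ ·)) = (#T - #e).choose (k - #e) := by
  have h1 : (T.powersetCard k).filter (e ⊆ ·) =
      ((T \ e).powersetCard (k - #e)).image (· ∪ e) := by
    ext ρ
    simp only [mem_filter, mem_powersetCard, mem_image]
    constructor
    · rintro ⟨⟨h1, h2⟩, h3⟩
      refine ⟨ρ \ e, ⟨sdiff_subset_sdiff h1 (Subset.refl _), ?_⟩, sdiff_union_of_subset h3⟩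
      rw [card_sdiff_of_subset h3, h2]
    · rintro ⟨τ, ⟨h1, h2⟩, rfl⟩
      have hd : Disjoint τ e := by
        rw [disjoint_left]
        intro v hv hve
        exact (mem_sdiff.1 (h1 hv)).2 hve
      refine ⟨⟨union_subset (h1.trans sdiff_subset) heT, ?_⟩, subset_union_right⟩
      rw [card_union_of_disjoint hd, h2]
      omega
  rw [h1, card_image_of_injOn, card_powersetCard, card_sdiff_of_subset heT]
  intro a ha b hb hab
  rw [mem_coe, mem_powersetCard] at ha hb
  have : ∀ c : Finset α, c ⊆ T \ e → (c ∪ e) \ e = c := by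
    intro c hc
    ext v
    simp only [mem_sdiff, mem_union]
    constructor
    · rintro ⟨h | h, h'⟩
      · exact h
      · exact absurd h h'
    · intro h
      exact ⟨Or.inl h, (mem_sdiff.1 (hc h)).2⟩
  rw [← this a ha.1, ← this b hb.1]
  simp only at hab
  rw [hab]

theorem mem_faces {n m : ℕ} (hm : m ≤ n + 1) {σ : Finset (Fin (n + 2))} :
    σ ∈ faces (simplexBd n) m ↔ #σ = m := by
  unfold faces simplexBd
  rw [mem_biUnion]
  constructor
  · rintro ⟨T, -, h⟩
    exact (mem_powersetCard.1 h).2
  · intro h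
    obtain ⟨T, h1, h2⟩ := exists_superset_card_eq (s := σ) (n := n + 1) (by omega)
      (by rw [Fintype.card_fin]; omega)
    exact ⟨T, mem_powersetCard.2 ⟨subset_univ _, h2⟩, mem_powersetCard.2 ⟨h1, h⟩⟩

theorem edgeRegular_simplexBd {n : ℕ} (hn : 4 ≤ n) : EdgeRegular n (simplexBd n) := by
  have hf : faces (simplexBd n) (n - 1) = powersetCard (n - 1) univ := by
    ext σ
    rw [mem_faces (by omega), mem_powersetCard]
    simp
  refine ⟨fun T hT => (mem_powersetCard.1 hT).2, ⟨n.choose (n - 1 - 2), fun e he => ?_⟩,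
    ⟨n.choose (n + 1 - 2), fun e he => ?_⟩, fun σ hσ => ?_⟩
  · rw [mem_faces (by omega)] at he
    rw [hf, count_pow (subset_univ _) (by omega), he, card_univ, Fintype.card_fin]
    rfl
  · rw [mem_faces (by omega)] at he
    unfold simplexBd
    rw [count_pow (subset_univ _) (by omega), he, card_univ, Fintype.card_fin]
    rfl
  · rw [mem_faces (by omega)] at hσ
    unfold simplexBd
    rw [count_pow (subset_univ _) (by omega), hσ, card_univ, Fintype.card_fin,
      show n + 2 - (n - 1) = 3 by omega, show n + 1 - (n - 1) = 2 by omega]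
    decide

end Pool.Agent.H50En.Ex1
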