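import Pool.Agent.H50En.ExDefs

/-! The boundary of the cross-polytope. -/

namespace Pool.Agent.H50En.Ex2

open Finset

section sym

variable {V : Type} [DecidableEq V]

theorem faces_map {K : Finset (Finset V)} {g : V ≃ V}
    (hg : ∀ T ∈ K, T.map g.toEmbedding ∈ K) {m : ℕ} {σ : Finset V} (h : σ ∈ faces K m) :
    σ.map g.toEmbedding ∈ faces K m := by
  unfold faces at *
  rw [mem_biUnion] at *
  obtain ⟨T, hT, h⟩ := h
  rw [mem_powersetCard] at h
  exact ⟨_, hg T hT, mem_powersetCard.2 ⟨map_subset_map.2 h.1, by rw [card_map]; exact h.2⟩⟩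

theorem card_le {A : Finset (Finset V)} {g : V ≃ V} (hg : ∀ T ∈ A, T.map g.toEmbedding ∈ A)
    (e : Finset V) :
    #(A.filter (e ⊆ ·)) ≤ #(A.filter (e.map g.toEmbedding ⊆ ·)) := by
  refine card_le_card_of_injOn (fun T => T.map g.toEmbedding) ?_ ?_
  · intro T hT
    rw [mem_coe, mem_filter] at *
    exact ⟨hg T hT.1, map_subset_map.2 hT.2⟩
  · intro a _ b _ h
    exact map_injective g.toEmbedding h

theorem card_eq {A : Finset (Finset V)} {g : V ≃ V} (hg : ∀ T ∈ A, T.map g.toEmbedding ∈ A)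
    (hg' : ∀ T ∈ A, T.map g.symm.toEmbedding ∈ A) (e : Finset V) :
    #(A.filter (e ⊆ ·)) = #(A.filter (e.map g.toEmbedding ⊆ ·)) := by
  refine le_antisymm (card_le hg e) ?_
  have h := card_le hg' (e.map g.toEmbedding)
  have h2 : (e.map g.toEmbedding).map g.symm.toEmbedding = e := by
    ext v
    simp
  rwa [h2] at h

end sym

/-- The section of `f`. -/
def sec {n : ℕ} (f : Fin (n + 1) → Bool) : Finset (Fin (n + 1) × Bool) :=
  univ.image fun i => (i, f i)

theorem mem_sec {n : ℕ} {f : Fin (n + 1) → Bool} {p : Fin (n + 1) × Bool} :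
    p ∈ sec f ↔ p.2 = f p.1 := by
  unfold sec
  rw [mem_image]
  constructor
  · rintro ⟨i, -, rfl⟩; rfl
  · intro h
    exact ⟨p.1, mem_univ _, by rw [← h]⟩

theorem mem_cross {n : ℕ} {T : Finset (Fin (n + 1) × Bool)} :
    T ∈ crossBd n ↔ ∃ f, sec f = T := by
  unfold crossBd
  rw [mem_image]
  constructor
  · rintro ⟨f, -, h⟩; exact ⟨f, h⟩
  · rintro ⟨f, h⟩; exact ⟨f, mem_univ _, h⟩

theorem card_sec {n : ℕ} (f : Fin (n + 1) → Bool) : #(sec f) = n + 1 := by
  unfold sec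
  rw [card_image_of_injective, card_univ, Fintype.card_fin]
  intro i j h
  exact congrArg Prod.fst h

theorem sec_inj {n : ℕ} {f f' : Fin (n + 1) → Bool} (h : sec f = sec f') : f = f' := by
  funext i
  have h1 : (i, f i) ∈ sec f := mem_sec.2 rfl
  rw [h] at h1
  exact mem_sec.1 h1

/-- The symmetry given by a permutation and flips. -/
def sy {n : ℕ} (π : Equiv.Perm (Fin (n + 1))) (φ : Fin (n + 1) → Bool) :
    Fin (n + 1) × Bool ≃ Fin (n + 1) × Bool where
  toFun p := (π p.1, xor p.2 (φ p.1))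
  invFun p := (π.symm p.1, xor p.2 (φ (π.symm p.1)))
  left_inv p := by simp
  right_inv p := by simp

theorem map_sy {n : ℕ} (π : Equiv.Perm (Fin (n + 1))) (φ : Fin (n + 1) → Bool)
    {T : Finset (Fin (n + 1) × Bool)} (hT : T ∈ crossBd n) :
    T.map (sy π φ).toEmbedding ∈ crossBd n := by
  obtain ⟨f, rfl⟩ := mem_cross.1 hT
  refine mem_cross.2 ⟨fun k => xor (f (π.symm k)) (φ (π.symm k)), ?_⟩
  ext p
  rw [mem_sec, mem_map_equiv, mem_sec]
  show p.2 = _ ↔ xor p.2 (φ (π.symm p.1)) = f (π.symm p.1)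
  cases p.2 <;> cases φ (π.symm p.1) <;> cases f (π.symm p.1) <;> simp

theorem map_sy' {n : ℕ} (π : Equiv.Perm (Fin (n + 1))) (φ : Fin (n + 1) → Bool)
    {T : Finset (Fin (n + 1) × Bool)} (hT : T ∈ crossBd n) :
    T.map (sy π φ).symm.toEmbedding ∈ crossBd n := by
  obtain ⟨f, rfl⟩ := mem_cross.1 hT
  refine mem_cross.2 ⟨fun k => xor (f (π k)) (φ k), ?_⟩
  ext p
  rw [mem_sec, mem_map_equiv, mem_sec]
  show p.2 = _ ↔ xor p.2 (φ p.1) = f (π p.1)
  cases p.2 <;> cases φ p.1 <;> cases f (π p.1) <;> simp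

theorem exists_perm {n : ℕ} (hn : 4 ≤ n) {i j : Fin (n + 1)} (hij : i ≠ j) :
    ∃ π : Equiv.Perm (Fin (n + 1)), π i = ⟨0, by omega⟩ ∧ π j = ⟨1, by omega⟩ := by
  set a : Fin (n + 1) := ⟨0, by omega⟩
  set b : Fin (n + 1) := ⟨1, by omega⟩
  have hab : a ≠ b := by simp [a, b]
  refine ⟨(Equiv.swap i a).trans (Equiv.swap (Equiv.swap i a j) b), ?_, ?_⟩
  · rw [Equiv.trans_apply, Equiv.swap_apply_left, Equiv.swap_apply_of_ne_of_ne _ hab]
    intro h
    have : Equiv.swap i a i = Equiv.swap i a j := by rw [Equiv.swap_apply_left]; exact h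
    exact hij ((Equiv.swap i a).injective this)
  · rw [Equiv.trans_apply, Equiv.swap_apply_left]

theorem exists_sy {n : ℕ} (hn : 4 ≤ n) {e : Finset (Fin (n + 1) × Bool)}
    (he : e ∈ faces (crossBd n) 2) :
    ∃ π φ, e.map (sy π φ).toEmbedding =
      {((⟨0, by omega⟩ : Fin (n + 1)), true), (⟨1, by omega⟩, true)} := by
  unfold faces at he
  rw [mem_biUnion] at he
  obtain ⟨T, hT, h⟩ := he
  obtain ⟨h1, h2⟩ := mem_powersetCard.1 h
  obtain ⟨f, rfl⟩ := mem_cross.1 hT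
  obtain ⟨p, q, hpq, rfl⟩ := card_eq_two.1 h2
  have hp : p.2 = f p.1 := mem_sec.1 (h1 (by simp))
  have hq : q.2 = f q.1 := mem_sec.1 (h1 (by simp))
  have hij : p.1 ≠ q.1 := fun h => hpq (Prod.ext h (by rw [hp, hq, h]))
  obtain ⟨π, hi, hj⟩ := exists_perm hn hij
  refine ⟨π, fun k => !(f k), ?_⟩
  rw [map_insert, map_singleton]
  have h3 : ∀ r : Fin (n + 1) × Bool, r.2 = f r.1 →
      (sy π fun k => !(f k)).toEmbedding r = (π r.1, true) := by
    intro r hr
    show (π r.1, xor r.2 (!(f r.1))) = _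
    rw [hr]
    simp
  rw [h3 p hp, h3 q hq, hi, hj]

theorem edgeRegular_crossBd {n : ℕ} (hn : 4 ≤ n) : EdgeRegular n (crossBd n) := by
  refine ⟨?_, ⟨#((faces (crossBd n) (n - 1)).filter
      ({((⟨0, by omega⟩ : Fin (n + 1)), true), (⟨1, by omega⟩, true)} ⊆ ·)), fun e he => ?_⟩,
    ⟨#((crossBd n).filter
      ({((⟨0, by omega⟩ : Fin (n + 1)), true), (⟨1, by omega⟩, true)} ⊆ ·)), fun e he => ?_⟩, ?_⟩
  · intro T hT
    obtain ⟨f, rfl⟩ := mem_cross.1 hT
    exact card_sec f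
  · obtain ⟨π, φ, h⟩ := exists_sy hn he
    rw [card_eq (g := sy π φ) (fun T hT => faces_map (fun _ => map_sy π φ) hT)
      (fun T hT => faces_map (fun _ => map_sy' π φ) hT) e, h]
  · obtain ⟨π, φ, h⟩ := exists_sy hn he
    rw [card_eq (g := sy π φ) (fun _ => map_sy π φ) (fun _ => map_sy' π φ) e, h]
  · intro σ hσ
    unfold faces at hσ
    rw [mem_biUnion] at hσ
    obtain ⟨T, hT, h⟩ := hσ
    obtain ⟨h1, h2⟩ := mem_powersetCard.1 h
    obtain ⟨f, rfl⟩ := mem_cross.1 hT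
    have h3 : #(sec f \ σ) = 2 := by
      rw [card_sdiff_of_subset h1, card_sec, h2]; omega
    obtain ⟨p, q, hpq, hs⟩ := card_eq_two.1 h3
    have hp : p ∈ sec f \ σ := by rw [hs]; simp
    have hq : q ∈ sec f \ σ := by rw [hs]; simp
    rw [mem_sdiff, mem_sec] at hp hq
    have hij : p.1 ≠ q.1 := fun h => hpq (Prod.ext h (by rw [hp.1, hq.1, h]))
    have hsub : ∀ r : Fin (n + 1) × Bool, r ∉ σ → r.2 = f r.1 →
        σ ⊆ sec (Function.update f r.1 (!(f r.1))) := by
      intro r hr hr2 v hv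
      rw [mem_sec]
      have hv2 := mem_sec.1 (h1 hv)
      rw [Function.update_of_ne, hv2]
      intro h
      exact hr ((Prod.ext h (by rw [hv2, hr2, h]) : v = r) ▸ hv)
    have h4 : 2 < #((crossBd n).filter (σ ⊆ ·)) := by
      rw [two_lt_card]
      refine ⟨sec f, mem_filter.2 ⟨hT, h1⟩, sec (Function.update f p.1 (!(f p.1))),
        mem_filter.2 ⟨mem_cross.2 ⟨_, rfl⟩, hsub p hp.2 hp.1⟩,
        sec (Function.update f q.1 (!(f q.1))),
        mem_filter.2 ⟨mem_cross.2 ⟨_, rfl⟩, hsub q hq.2 hq.1⟩, ?_, ?_, ?_⟩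
      · intro h
        have := congrFun (sec_inj h) p.1
        simp at this
      · intro h
        have := congrFun (sec_inj h) q.1
        simp at this
      · intro h
        have := congrFun (sec_inj h) p.1
        rw [Function.update_self, Function.update_of_ne hij] at this
        simp at this
    omega

end Pool.Agent.H50En.Ex2
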