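import Pool.Agent.H50En.Defs

/-! Edge-regular complexes and two examples. -/

namespace Pool.Agent.H50En

open Finset

/-- `K` is a finite pure `n`-dimensional complex in which all edges lie in the same number of
`(n-2)`-simplices and in the same number of `n`-simplices, and every `(n-2)`-simplex lies in at least
three `n`-simplices. -/
def EdgeRegular {V : Type} [DecidableEq V] (n : ℕ) (K : Finset (Finset V)) : Prop :=
  Pure n K ∧ (∃ s : ℕ, ∀ e ∈ faces K 2, #((faces K (n - 1)).filter (e ⊆ ·)) = s) ∧
    (∃ d : ℕ, ∀ e ∈ faces K 2, #(K.filter (e ⊆ ·)) = d) ∧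
    ∀ σ ∈ faces K (n - 1), 3 ≤ #(K.filter (σ ⊆ ·))

/-- The boundary of the `(n+1)`-simplex: its `n`-simplices are the `(n+1)`-element sets of
vertices. -/
def simplexBd (n : ℕ) : Finset (Finset (Fin (n + 2))) := powersetCard (n + 1) univ

/-- The boundary of the `(n+1)`-dimensional cross-polytope with the `n + 1` pairs of opposite
vertices `(i, true)`, `(i, false)`: its `n`-simplices are the sets with one vertex of each pair. -/
def crossBd (n : ℕ) : Finset (Finset (Fin (n + 1) × Bool)) :=
  univ.image fun f : Fin (n + 1) → Bool => univ.image fun i => (i, f i)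

end Pool.Agent.H50En
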