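import Pool.Agent.H50En.Num

namespace Pool.Agent.H50En.Ivt

open Real Finset Pool.Agent.H50En

/-- F: the equation. -/
theorem ivt {n s d : ℕ} (hn : 4 ≤ n) (hs : 0 < s) (hsd : 3 * s ≤ (n - 1).choose 2 * d) :
    ∃ t : ℝ, (n - 1 : ℝ) / (2 * n) < t ∧ t < 1 / 2 ∧ fb n t = t * fa n s d t := by
  have hn4 : (4 : ℝ) ≤ n := by exact_mod_cast hn
  have hn0 : (0 : ℝ) < n := by linarith
  set t0 : ℝ := (n - 1 : ℝ) / (2 * n) with ht0
  have ht0' : t0 - 1 / 2 = -(1 / (2 * n)) := by rw [ht0]; field_simp; ring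
  have ht0lt : t0 < 1 / 2 := by
    have : 0 < 1 / (2 * (n : ℝ)) := by positivity
    linarith
  have hinv : (n : ℝ) * (1 / (2 * n)) = 1 / 2 := by field_simp
  -- positivity on the interval
  have p1 : ∀ t ∈ Set.Icc t0 (1 / 2), 0 < 1 / 2 + (n - 1 : ℝ) * (t - 1 / 2) := by
    intro t ht
    have h1 : -(1 / (2 * n)) ≤ t - 1 / 2 := by rw [← ht0']; linarith [ht.1]
    have h2 : (n - 1 : ℝ) * (-(1 / (2 * n))) ≤ (n - 1 : ℝ) * (t - 1 / 2) :=
      mul_le_mul_of_nonneg_left h1 (by linarith)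
    have h3 : (n - 1 : ℝ) * (-(1 / (2 * n))) = -(1 / 2) + 1 / (2 * n) := by field_simp; ring
    have h4 : 0 < 1 / (2 * (n : ℝ)) := by positivity
    linarith
  have p2 : ∀ t ∈ Set.Icc t0 (1 / 2), 0 < 1 / 2 + (n - 2 : ℝ) * (t - 1 / 2) := by
    intro t ht
    have h1 := p1 t ht
    have h2 : t - 1 / 2 ≤ 0 := by linarith [ht.2]
    nlinarith
  have p3 : ∀ t ∈ Set.Icc t0 (1 / 2), 0 < (n : ℝ) * (1 + 2 * (n - 1) * (t - 1 / 2)) := by
    intro t ht
    have h1 := p1 t ht
    have : (1 : ℝ) + 2 * (n - 1) * (t - 1 / 2) = 2 * (1 / 2 + (n - 1 : ℝ) * (t - 1 / 2)) := by ring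
    rw [this]
    positivity
  have cthb : ContinuousOn (thb n) (Set.Icc t0 (1 / 2)) := by
    refine continuous_arccos.comp_continuousOn ?_
    refine ContinuousOn.div continuousOn_const ?_ fun t ht => (Real.sqrt_pos.2 (p3 t ht)).ne'
    exact (by fun_prop : Continuous fun t : ℝ => √((n : ℝ) * (1 + 2 * (n - 1) * (t - 1 / 2)))).continuousOn
  have cthl : ContinuousOn (thl n) (Set.Icc t0 (1 / 2)) := by
    refine continuous_arccos.comp_continuousOn ?_
    exact ContinuousOn.div (by fun_prop) (by fun_prop) fun t ht => (p1 t ht).ne'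
  have cF : ContinuousOn (fun t => fb n t - t * fa n s d t) (Set.Icc t0 (1 / 2)) := by
    have c1 : ContinuousOn (fun t : ℝ => √(1 + 2 * (n - 2 : ℝ) * (t - 1 / 2))) (Set.Icc t0 (1 / 2)) :=
      (by fun_prop : Continuous fun t : ℝ => √(1 + 2 * (n - 2 : ℝ) * (t - 1 / 2))).continuousOn
    have c2 : ContinuousOn (fun t : ℝ => (t - 1 / 2) / (1 / 2 + (n - 2 : ℝ) * (t - 1 / 2)))
        (Set.Icc t0 (1 / 2)) :=
      ContinuousOn.div (by fun_prop) (by fun_prop) fun t ht => (p2 t ht).ne'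
    have c3 : ContinuousOn (fun t : ℝ => 1 / (2 * (1 / 2 + (n - 2 : ℝ) * (t - 1 / 2))))
        (Set.Icc t0 (1 / 2)) :=
      ContinuousOn.div (by fun_prop) (by fun_prop) fun t ht => (mul_pos two_pos (p2 t ht)).ne'
    unfold fb fa
    fun_prop
  have hpi := Real.pi_pos
  -- value at the left end
  have e1 : thb n t0 = 0 := by
    rw [thb, ht0']
    have : (n : ℝ) * (1 + 2 * (n - 1) * -(1 / (2 * n))) = 1 := by field_simp; ring
    rw [this]
    simp
  have e2 : thl n t0 = π := by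
    rw [thl, ht0']
    have : -(1 / (2 * (n : ℝ))) / (1 / 2 + (n - 1) * -(1 / (2 * n))) = -1 := by
      have h : (1 : ℝ) / 2 + (n - 1) * -(1 / (2 * n)) = 1 / (2 * n) := by field_simp; ring
      rw [h]
      field_simp
    rw [this, Real.arccos_neg_one]
  have hc3 : 0 < (n.choose 3 : ℝ) := by
    have : 0 < n.choose 3 := Nat.choose_pos (by omega)
    exact_mod_cast this
  have hL : fb n t0 - t0 * fa n s d t0 < 0 := by
    have ht0pos : 0 < t0 := by
      rw [ht0]
      have : 0 < (n : ℝ) - 1 := by linarith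
      positivity
    have f1 : 1 - 3 * thl n t0 / (2 * π) = -(1 / 2) := by rw [e2]; field_simp; ring
    have f2 : (1 : ℝ) + 2 * (n - 2) * (t0 - 1 / 2) = 2 / n := by rw [ht0']; field_simp; ring
    have f3 : (1 : ℝ) / 2 + (n - 2) * (t0 - 1 / 2) = 1 / n := by rw [ht0']; field_simp; ring
    have f4 : (t0 - 1 / 2) / (1 / 2 + (n - 2) * (t0 - 1 / 2)) = -(1 / 2) := by
      rw [f3, ht0']; field_simp
    have hfb : fb n t0 < 0 := by
      rw [fb, f1, f2, f3]
      have h1 : 0 < √(2 / (n : ℝ)) := Real.sqrt_pos.2 (by positivity)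
      have h2 : 0 < 1 / (2 * (1 / (n : ℝ))) := by positivity
      have h3 : 0 < (n.choose 3 : ℝ) * √(2 / (n : ℝ)) * (1 / (2 * (1 / (n : ℝ)))) := by positivity
      nlinarith
    have hfa : 0 ≤ fa n s d t0 := by
      rw [fa, f1, f2, f4, e1]
      have h1 : 0 ≤ √(2 / (n : ℝ)) := Real.sqrt_nonneg _
      have h2 : 0 ≤ (s - ((n - 1).choose 2 : ℝ) * d * 0 / π) * √(n - 1 : ℝ) / (n - 1) := by
        have h5 : (0 : ℝ) < n - 1 := by linarith
        have h6 : (s : ℝ) - ((n - 1).choose 2 : ℝ) * d * 0 / π = s := by ring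
        rw [h6]
        positivity
      have h3 : 0 ≤ (d : ℝ) * ((n - 1).choose 3 : ℝ) * √(2 / (n : ℝ)) := by positivity
      nlinarith
    have := mul_nonneg ht0pos.le hfa
    linarith
  -- value at the right end
  have hR : 0 < fb n (1 / 2) - (1 / 2) * fa n s d (1 / 2) := by
    have g1 : thl n (1 / 2) = π / 2 := by
      rw [thl]
      norm_num
    have g2 : π / 3 ≤ thb n (1 / 2) := by
      rw [thb]
      have h1 : (n : ℝ) * (1 + 2 * (n - 1) * (1 / 2 - 1 / 2)) = n := by ring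
      rw [h1]
      have h2 : (2 : ℝ) ≤ √n := by
        apply Real.le_sqrt_of_sq_le
        linarith
      have h3 : 1 / √(n : ℝ) ≤ 1 / 2 := one_div_le_one_div_of_le two_pos h2
      have h4 : arccos (1 / 2) = π / 3 := by
        rw [← Real.cos_pi_div_three]
        exact Real.arccos_cos (by positivity) (by linarith)
      rw [← h4]
      exact Real.arccos_le_arccos h3
    have hfb : 0 < fb n (1 / 2) := by
      rw [fb, g1]
      have h1 : (1 : ℝ) + 2 * (n - 2) * (1 / 2 - 1 / 2) = 1 := by ring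
      have h2 : (1 : ℝ) / (2 * (1 / 2 + (n - 2) * (1 / 2 - 1 / 2))) = 1 := by norm_num
      have h3 : 1 - 3 * (π / 2) / (2 * π) = 1 / 4 := by field_simp; ring
      rw [h1, h2, h3, Real.sqrt_one]
      positivity
    have hfa : fa n s d (1 / 2) ≤ 0 := by
      rw [fa]
      have h1 : ((1 : ℝ) / 2 - 1 / 2) / (1 / 2 + (n - 2) * (1 / 2 - 1 / 2)) = 0 := by simp
      rw [h1, mul_zero, add_zero]
      have h2 : (s : ℝ) - ((n - 1).choose 2 : ℝ) * d * thb n (1 / 2) / π ≤ 0 := by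
        have h3 : (3 : ℝ) * s ≤ ((n - 1).choose 2 : ℝ) * d := by exact_mod_cast hsd
        have h4 : ((n - 1).choose 2 : ℝ) * d * (π / 3) ≤ ((n - 1).choose 2 : ℝ) * d * thb n (1 / 2) :=
          mul_le_mul_of_nonneg_left g2 (by positivity)
        have h5 : (s : ℝ) ≤ ((n - 1).choose 2 : ℝ) * d * thb n (1 / 2) / π := by
          rw [le_div_iff₀ hpi]
          nlinarith
        linarith
      have h6 : (0 : ℝ) < n - 1 := by linarith
      have h7 : 0 ≤ √(n - 1 : ℝ) / (n - 1) := by positivity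
      rw [mul_div_assoc]
      exact mul_nonpos_of_nonpos_of_nonneg h2 h7
    linarith
  have him := intermediate_value_Ioo ht0lt.le cF
  obtain ⟨t, ht, hte⟩ := him (show (0 : ℝ) ∈ Set.Ioo _ _ from ⟨hL, hR⟩)
  refine ⟨t, ht.1, ht.2, ?_⟩
  simp only at hte
  linarith

end Pool.Agent.H50En.Ivt
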