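import Pool.Agent.H50En.Defs

/-!
# The Cayley-Menger matrix of a pyramid over a regular simplex
-/

namespace Pool.Agent.H50En.Pyr

open Real Finset Pool.Agent.H50En

variable {V : Type} [DecidableEq V]

/-- indicator of the apex -/
def chi (s : Finset V) (a : V) (k : s) : ℝ := if k.1 = a then 1 else 0

theorem chi_sq (s : Finset V) (a : V) (k : s) : chi s a k * chi s a k = chi s a k := by
  unfold chi
  split_ifs <;> norm_num

theorem sum_chi {s : Finset V} {a : V} (ha : a ∈ s) : ∑ k : s, chi s a k = 1 := by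
  classical
  have h : ∀ k : s, chi s a k = if k = ⟨a, ha⟩ then 1 else 0 := by
    intro k
    unfold chi
    by_cases hk : k.1 = a
    · rw [if_pos hk, if_pos (Subtype.ext hk)]
    · rw [if_neg hk, if_neg (fun h => hk (by rw [h]))]
  rw [Finset.sum_congr rfl fun k _ => h k, Finset.sum_ite_eq' univ (⟨a, ha⟩ : s)]
  simp

theorem sum_one {s : Finset V} {m : ℕ} (hm : #s = m + 1) (c : ℝ) :
    ∑ _k : s, c = (m + 1) * c := by
  rw [Finset.sum_const, Finset.card_univ, Fintype.card_coe, hm, nsmul_eq_mul]
  push_cast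
  ring

theorem sum_form {s : Finset V} {a : V} (ha : a ∈ s) {m : ℕ} (hm : #s = m + 1) (i j : s)
    (u v g p q : ℝ) :
    ∑ k : s, ((u + v * chi s a k) - (if i = k then g else 0)) *
      ((p + q * chi s a k) - (if k = j then 1 else 0)) =
    (m + 1) * (u * p) + (u * q + v * p + v * q) - (u + v * chi s a j) -
      g * (p + q * chi s a i) + (if i = j then g else 0) := by
  classical
  have h : ∀ k : s, ((u + v * chi s a k) - (if i = k then g else 0)) *
      ((p + q * chi s a k) - (if k = j then 1 else 0)) =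
      u * p + (u * q + v * p + v * q) * chi s a k - (if k = j then u + v * chi s a k else 0) -
      (if i = k then g * (p + q * chi s a k) else 0) +
      (if i = k then (if k = j then g else 0) else 0) := by
    intro k
    have h1 := chi_sq s a k
    split_ifs <;> linear_combination (v * q) * h1
  have e1 : ∀ C : ℝ, ∑ k : s, C * chi s a k = C := fun C => by
    rw [← Finset.mul_sum, sum_chi ha, mul_one]
  rw [Finset.sum_congr rfl fun k _ => h k, Finset.sum_add_distrib, Finset.sum_sub_distrib,
    Finset.sum_sub_distrib, Finset.sum_add_distrib, e1, sum_one hm,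
    Finset.sum_ite_eq', Finset.sum_ite_eq, Finset.sum_ite_eq]
  simp

theorem sum_form1 {s : Finset V} {a : V} (ha : a ∈ s) {m : ℕ} (hm : #s = m + 1) (j : s)
    (p q : ℝ) :
    ∑ k : s, ((p + q * chi s a k) - (if k = j then 1 else 0)) = (m + 1) * p + q - 1 := by
  classical
  rw [Finset.sum_sub_distrib, Finset.sum_add_distrib, ← Finset.mul_sum, sum_chi ha, sum_one hm,
    Finset.sum_ite_eq']
  simp

theorem sum_form2 {s : Finset V} {a : V} (ha : a ∈ s) {m : ℕ} (hm : #s = m + 1) (i : s)
    (u v g p q : ℝ) :
    ∑ k : s, ((u + v * chi s a k) - (if i = k then g else 0)) * (p + q * chi s a k) =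
    (m + 1) * (u * p) + (u * q + v * p + v * q) - g * (p + q * chi s a i) := by
  classical
  have h : ∀ k : s, ((u + v * chi s a k) - (if i = k then g else 0)) * (p + q * chi s a k) =
      u * p + (u * q + v * p + v * q) * chi s a k -
      (if i = k then g * (p + q * chi s a k) else 0) := by
    intro k
    have h1 := chi_sq s a k
    split_ifs <;> linear_combination (v * q) * h1
  have e1 : ∀ C : ℝ, ∑ k : s, C * chi s a k = C := fun C => by
    rw [← Finset.mul_sum, sum_chi ha, mul_one]
  rw [Finset.sum_congr rfl fun k _ => h k, Finset.sum_sub_distrib, Finset.sum_add_distrib,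
    e1, sum_one hm, Finset.sum_ite_eq]
  simp

theorem CM_entry {z : Sym2 V → ℝ} {s : Finset V} {a : V} (ha : a ∈ s) {t : ℝ}
    (h1 : ∀ x ∈ s, ∀ y ∈ s, x ≠ a → y ≠ a → x ≠ y → z s(x, y) = 1)
    (h2 : ∀ x ∈ s, x ≠ a → z s(a, x) = t) (i k : s) :
    CM z s (some i) (some k) = ((1 + (t - 1) * chi s a i) + (t - 1) * chi s a k) -
      (if i = k then 1 + 2 * (t - 1) * chi s a i else 0) := by
  have e : CM z s (some i) (some k) = if i = k then 0 else z s(i.1, k.1) := rfl
  rw [e]
  unfold chi
  by_cases hik : i = k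
  · subst hik
    rw [if_pos rfl, if_pos rfl]
    ring
  · rw [if_neg hik, if_neg hik]
    have hne : i.1 ≠ k.1 := fun h => hik (Subtype.ext h)
    by_cases hi : i.1 = a
    · have hk : k.1 ≠ a := fun h => hne (by rw [hi, h])
      rw [if_pos hi, if_neg hk, hi, h2 k.1 k.2 hk]
      ring
    · by_cases hk : k.1 = a
      · rw [if_neg hi, if_pos hk, hk, Sym2.eq_swap, h2 i.1 i.2 hi]
        ring
      · rw [if_neg hi, if_neg hk, h1 i.1 i.2 k.1 k.2 hi hk hne]
        ring

/-- the explicit inverse -/
noncomputable def PM (s : Finset V) (a : V) (m : ℕ) (t : ℝ) : Matrix (Option s) (Option s) ℝ :=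
  Matrix.of fun i j => match i, j with
    | none, none => -(m * t ^ 2) / (2 * (1 / 2 + m * (t - 1 / 2)))
    | none, some j => (t + (-(m - 1) * (1 - t)) * chi s a j) / (2 * (1 / 2 + m * (t - 1 / 2)))
    | some i, none => (t + (-(m - 1) * (1 - t)) * chi s a i) / (2 * (1 / 2 + m * (t - 1 / 2)))
    | some i, some j => (((t - 1 / 2) + (1 - t) * chi s a j) / (1 / 2 + m * (t - 1 / 2)) +
        (((1 - t) - (m + 1) * (1 - t) * chi s a j) / (1 / 2 + m * (t - 1 / 2))) * chi s a i) -
        (if i = j then 1 else 0)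

theorem CM_mul_PM {z : Sym2 V → ℝ} {s : Finset V} {a : V} (ha : a ∈ s) {m : ℕ} (hm : #s = m + 1)
    {t : ℝ} (ht : 0 < 1 / 2 + m * (t - 1 / 2))
    (h1 : ∀ x ∈ s, ∀ y ∈ s, x ≠ a → y ≠ a → x ≠ y → z s(x, y) = 1)
    (h2 : ∀ x ∈ s, x ≠ a → z s(a, x) = t) : CM z s * PM s a m t = 1 := by
  classical
  obtain ⟨E, hE⟩ : ∃ E : ℝ, E = 1 / 2 + m * (t - 1 / 2) := ⟨_, rfl⟩
  have hE0 : E ≠ 0 := by rw [hE]; exact ht.ne'
  have p1 : ∀ i j : s, PM s a m t (some i) (some j) = (((t - 1 / 2) + (1 - t) * chi s a j) / E +
      (((1 - t) - (m + 1) * (1 - t) * chi s a j) / E) * chi s a i) -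
      (if i = j then 1 else 0) := by
    intro i j
    rw [hE]
    rfl
  have p2 : ∀ j : s, PM s a m t none (some j) = (t + (-(m - 1) * (1 - t)) * chi s a j) / (2 * E) := by
    intro j
    rw [hE]
    rfl
  have p3 : ∀ j : s, PM s a m t (some j) none =
      t / (2 * E) + ((-(m - 1) * (1 - t)) / (2 * E)) * chi s a j := by
    intro j
    have : PM s a m t (some j) none = (t + (-(m - 1) * (1 - t)) * chi s a j) / (2 * E) := by
      rw [hE]
      rfl
    rw [this]
    ring
  have p4 : PM s a m t none none = -(m * t ^ 2) / (2 * E) := by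
    rw [hE]
    rfl
  have c1 : ∀ i : s, CM z s (some i) none = 1 := fun i => rfl
  have c2 : ∀ i : s, CM z s none (some i) = 1 := fun i => rfl
  have c3 : CM z s none none = 0 := rfl
  have hmE : (m : ℝ) * t = E - 1 / 2 + m / 2 := by rw [hE]; ring
  ext i j
  rw [Matrix.mul_apply, Fintype.sum_option]
  cases i with
  | none =>
    cases j with
    | none =>
      rw [c3, zero_mul, zero_add, Matrix.one_apply_eq]
      simp only [c2, one_mul, p3]
      rw [Finset.sum_add_distrib, ← Finset.mul_sum, sum_chi ha, sum_one hm]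
      field_simp
      linear_combination 2 * hmE
    | some j =>
      rw [c3, zero_mul, zero_add, Matrix.one_apply_ne (by simp)]
      simp only [c2, one_mul, p1]
      rw [sum_form1 ha hm]
      field_simp
      linear_combination (-2 : ℝ) * hE
  | some i =>
    cases j with
    | none =>
      rw [c1, one_mul, p4, Matrix.one_apply_ne (by simp)]
      simp only [CM_entry ha h1 h2, p3]
      rw [sum_form2 ha hm]
      have hx := chi_sq s a i
      obtain ⟨x, hxd⟩ : ∃ x, x = chi s a i := ⟨_, rfl⟩
      rw [← hxd] at hx ⊢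
      have hx2 : x = 0 ∨ x = 1 := by
        have : x * (x - 1) = 0 := by linear_combination hx
        rcases mul_eq_zero.mp this with h | h
        · exact Or.inl h
        · exact Or.inr (by linarith)
      rcases hx2 with rfl | rfl
      · field_simp
        ring
      · field_simp
        ring
    | some j =>
      rw [c1, one_mul, p2]
      simp only [CM_entry ha h1 h2, p1]
      rw [sum_form ha hm]
      have h01 : ∀ k : s, chi s a k = 0 ∨ chi s a k = 1 := by
        intro k
        unfold chi
        split_ifs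
        · exact Or.inr rfl
        · exact Or.inl rfl
      by_cases hij : i = j
      · subst hij
        rw [Matrix.one_apply_eq, if_pos rfl]
        rcases h01 i with h | h
        · rw [h]
          field_simp
          linear_combination (-2 : ℝ) * hE
        · rw [h]
          field_simp
          linear_combination (-2 : ℝ) * hE
      · rw [Matrix.one_apply_ne (by simpa using hij), if_neg hij]
        rcases h01 i with h | h
        · rcases h01 j with h' | h'
          · rw [h, h']
            field_simp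
            linear_combination (-2 : ℝ) * hE
          · rw [h, h']
            field_simp
            linear_combination (-2 * t) * hE
        · rcases h01 j with h' | h'
          · rw [h, h']
            field_simp
            linear_combination (-2 * t) * hE
          · exfalso
            apply hij
            apply Subtype.ext
            unfold chi at h h'
            have e1 : i.1 = a := by
              by_contra hne
              rw [if_neg hne] at h
              exact zero_ne_one h
            have e2 : j.1 = a := by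
              by_contra hne
              rw [if_neg hne] at h'
              exact zero_ne_one h'
            rw [e1, e2]

/-- first factor -/
noncomputable def UU (s : Finset V) (a : V) : Matrix (Option s) (Fin 3) ℝ :=
  Matrix.of fun i => match i with
    | none => ![1, 0, 0]
    | some i => ![1, 1 - chi s a i, chi s a i]

/-- second factor -/
noncomputable def WW (s : Finset V) (a : V) (t : ℝ) : Matrix (Fin 3) (Option s) ℝ :=
  Matrix.of fun r j => match j with
    | none => ![1, 0, 0] r
    | some j => ![1, (t - 1) * chi s a j, (t - 1) * (1 - chi s a j)] r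

theorem CM_det {z : Sym2 V → ℝ} {s : Finset V} {a : V} (ha : a ∈ s) {m : ℕ} (hm : #s = m + 1)
    {t : ℝ} (ht : 0 < 1 / 2 + m * (t - 1 / 2))
    (h1 : ∀ x ∈ s, ∀ y ∈ s, x ≠ a → y ≠ a → x ≠ y → z s(x, y) = 1)
    (h2 : ∀ x ∈ s, x ≠ a → z s(a, x) = t) : |(CM z s).det| = 1 + 2 * m * (t - 1 / 2) := by
  classical
  have hneg : CM z s = -(1 - UU s a * WW s a t) := by
    ext i j
    rw [Matrix.neg_apply, Matrix.sub_apply, Matrix.mul_apply, Fin.sum_univ_three]
    cases i with
    | none =>
      cases j with
      | none =>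
        have e1 : CM z s none none = 0 := rfl
        rw [e1]
        simp [UU, WW]
      | some j =>
        have e1 : CM z s none (some j) = 1 := rfl
        rw [e1]
        simp [UU, WW]
    | some i =>
      cases j with
      | none =>
        have e1 : CM z s (some i) none = 1 := rfl
        rw [e1]
        simp [UU, WW]
      | some j =>
        rw [CM_entry ha h1 h2]
        have e2 : (1 : Matrix (Option s) (Option s) ℝ) (some i) (some j) = if i = j then 1 else 0 := by
          rw [Matrix.one_apply]
          simp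
        rw [e2]
        simp only [UU, WW, Matrix.of_apply, Matrix.cons_val_zero, Matrix.cons_val_one,
          Matrix.cons_val]
        have hx := chi_sq s a i
        by_cases hij : i = j
        · subst hij
          rw [if_pos rfl, if_pos rfl]
          linear_combination (2 * (t - 1)) * hx
        · rw [if_neg hij, if_neg hij]
          have h0 : chi s a i * chi s a j = 0 := by
            unfold chi
            by_cases hi : i.1 = a
            · have hj : j.1 ≠ a := fun h => hij (Subtype.ext (by rw [hi, h]))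
              rw [if_neg hj, mul_zero]
            · rw [if_neg hi, zero_mul]
          linear_combination (2 * (t - 1)) * h0
  have hsc : ∀ C : ℝ, ∑ k : s, C * chi s a k = C := fun C => by
    rw [← Finset.mul_sum, sum_chi ha, mul_one]
  have hWU : WW s a t * UU s a = !![(m : ℝ) + 2, m, 1; t - 1, 0, t - 1;
      (t - 1) * m, (t - 1) * m, 0] := by
    have hs1 := sum_one hm (1 : ℝ)
    have hs2 := sum_chi ha
    have hs3 : ∑ k : s, chi s a k * chi s a k = 1 := by
      rw [Finset.sum_congr rfl fun k _ => chi_sq s a k, hs2]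
    have hs2' : ∑ k ∈ s.attach, chi s a k = 1 := hs2
    have hs3' : ∑ k ∈ s.attach, chi s a k * chi s a k = 1 := hs3
    ext i j
    rw [Matrix.mul_apply, Fintype.sum_option]
    fin_cases i <;> fin_cases j <;>
      simp [UU, WW, mul_sub, sub_mul, mul_assoc, Finset.sum_sub_distrib, ← Finset.mul_sum, hs2',
        hs3', hm] <;> ring
  rw [hneg, Matrix.det_neg, abs_mul, abs_pow, abs_neg, abs_one, one_pow, one_mul,
    Matrix.det_one_sub_mul_comm, hWU, Matrix.det_fin_three]
  have e3 : (1 - !![(m : ℝ) + 2, m, 1; t - 1, 0, t - 1; (t - 1) * m, (t - 1) * m, 0]) 0 0 =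
      1 - (m + 2) := by simp
  have e4 : ∀ x : ℝ, x = -(1 + 2 * m * (t - 1 / 2)) → |x| = 1 + 2 * m * (t - 1 / 2) := by
    intro x hx
    rw [hx, abs_neg, abs_of_pos]
    linarith
  apply e4
  simp
  ring

/-- D: the pyramid with apex `a`, `m` base vertices, base edges `1` and lateral edges `t`
(`t = 1`: the regular simplex). -/
theorem pyramid {z : Sym2 V → ℝ} {s : Finset V} {a : V} (ha : a ∈ s) {m : ℕ} (hm : #s = m + 1)
    (hm1 : 1 ≤ m) {t : ℝ} (ht : 0 < 1 / 2 + m * (t - 1 / 2))
    (h1 : ∀ x ∈ s, ∀ y ∈ s, x ≠ a → y ≠ a → x ≠ y → z s(x, y) = 1)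
    (h2 : ∀ x ∈ s, x ≠ a → z s(a, x) = t) :
    |(CM z s).det| = 1 + 2 * m * (t - 1 / 2) ∧
    Q z s a a = - m / (2 * (1 / 2 + m * (t - 1 / 2))) ∧
    (∀ x ∈ s, x ≠ a → Q z s a x = 1 / (2 * (1 / 2 + m * (t - 1 / 2)))) ∧
    (∀ x ∈ s, x ≠ a → Q z s x x = - (1 / 2 + (m - 1) * (t - 1 / 2)) / (1 / 2 + m * (t - 1 / 2))) ∧
    (∀ x ∈ s, ∀ y ∈ s, x ≠ a → y ≠ a → x ≠ y →
      Q z s x y = (t - 1 / 2) / (1 / 2 + m * (t - 1 / 2))) := by
  classical
  have hinv : (CM z s)⁻¹ = PM s a m t := Matrix.inv_eq_right_inv (CM_mul_PM ha hm ht h1 h2)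
  have hQ : ∀ k l : s, Q z s k.1 l.1 = PM s a m t (some k) (some l) := by
    intro k l
    unfold Q
    rw [dif_pos ⟨k.2, l.2⟩, hinv]
  obtain ⟨E, hE⟩ : ∃ E : ℝ, E = 1 / 2 + m * (t - 1 / 2) := ⟨_, rfl⟩
  have hE0 : E ≠ 0 := by rw [hE]; exact ht.ne'
  have p1 : ∀ i j : s, PM s a m t (some i) (some j) = (((t - 1 / 2) + (1 - t) * chi s a j) / E +
      (((1 - t) - (m + 1) * (1 - t) * chi s a j) / E) * chi s a i) -
      (if i = j then 1 else 0) := by
    intro i j
    rw [hE]
    rfl
  have hca : chi s a ⟨a, ha⟩ = 1 := by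
    unfold chi
    rw [if_pos rfl]
  have hcx : ∀ x (hx : x ∈ s), x ≠ a → chi s a ⟨x, hx⟩ = 0 := by
    intro x hx hxa
    unfold chi
    rw [if_neg hxa]
  rw [← hE]
  refine ⟨CM_det ha hm ht h1 h2, ?_, ?_, ?_, ?_⟩
  · have := hQ ⟨a, ha⟩ ⟨a, ha⟩
    rw [p1, hca, if_pos rfl] at this
    rw [this]
    field_simp
    linear_combination (-2 : ℝ) * hE
  · intro x hx hxa
    have := hQ ⟨a, ha⟩ ⟨x, hx⟩
    rw [p1, hca, hcx x hx hxa, if_neg (fun h => hxa (congrArg Subtype.val h).symm)] at this
    rw [this]
    field_simp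
    ring
  · intro x hx hxa
    have := hQ ⟨x, hx⟩ ⟨x, hx⟩
    rw [p1, hcx x hx hxa, if_pos rfl] at this
    rw [this]
    field_simp
    linear_combination (-2 : ℝ) * hE
  · intro x hx y hy hxa hya hxy
    have := hQ ⟨x, hx⟩ ⟨y, hy⟩
    rw [p1, hcx x hx hxa, hcx y hy hya, if_neg (fun h => hxy (congrArg Subtype.val h))] at this
    rw [this]
    ring

end Pool.Agent.H50En.Pyr
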