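import Pool.Agent.H50En.Regge
import Pool.Agent.H50En.Pyr

/-!
# Package H: the metric `1`
-/

namespace Pool.Agent.H50En.One

open Real Finset Pool.Agent.H50En Pool.Agent.H50En.Pyr Pool.Agent.H50En.Der

variable {V : Type} [DecidableEq V]

/-- the number of faces between an edge and a simplex -/
theorem card_between {n : ℕ} (hn : 4 ≤ n) {T e : Finset V} (hT : #T = n + 1) (he : #e = 2)
    (heT : e ⊆ T) : #((powersetCard (n - 1) T).filter (e ⊆ ·)) = (n - 1).choose 2 := by
  have h1 : #(powersetCard (n - 3) (T \ e)) = (n - 1).choose 2 := by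
    rw [card_powersetCard, card_sdiff_of_subset heT, hT, he]
    have : n + 1 - 2 = n - 1 := by omega
    rw [this]
    exact Nat.choose_symm_of_eq_add (by omega)
  rw [← h1]
  refine card_bij' (fun σ _ => σ \ e) (fun τ _ => τ ∪ e) ?_ ?_ ?_ ?_
  · intro σ hσ
    rw [mem_filter, mem_powersetCard] at hσ
    rw [mem_powersetCard]
    refine ⟨sdiff_subset_sdiff hσ.1.1 (Subset.refl e), ?_⟩
    rw [card_sdiff_of_subset hσ.2, hσ.1.2, he]
    omega
  · intro τ hτ
    rw [mem_powersetCard] at hτ
    rw [mem_filter, mem_powersetCard]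
    have hdis : Disjoint τ e := disjoint_of_subset_left hτ.1 sdiff_disjoint
    refine ⟨⟨union_subset (hτ.1.trans sdiff_subset) heT, ?_⟩, subset_union_right⟩
    rw [card_union_of_disjoint hdis, hτ.2, he]
    omega
  · intro σ hσ
    rw [mem_filter] at hσ
    exact sdiff_union_of_subset hσ.2
  · intro τ hτ
    rw [mem_powersetCard] at hτ
    have hdis : Disjoint τ e := disjoint_of_subset_left hτ.1 sdiff_disjoint
    rw [union_sdiff_right, sdiff_eq_self_of_disjoint hdis]

/-- the sum of the degrees of the faces at an edge -/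
theorem sum_deg {n : ℕ} (hn : 4 ≤ n) {K : Finset (Finset V)} (hK : Pure n K) {e : Finset V}
    (he : #e = 2) : ∑ σ ∈ (faces K (n - 1)).filter (e ⊆ ·), #(K.filter (σ ⊆ ·)) =
      (n - 1).choose 2 * #(K.filter (e ⊆ ·)) := by
  have h4 := sum_card_bipartiteAbove_eq_sum_card_bipartiteBelow
    (s := (faces K (n - 1)).filter (e ⊆ ·)) (t := K.filter (e ⊆ ·)) (fun σ T => σ ⊆ T)
  have h5 : ∑ σ ∈ (faces K (n - 1)).filter (e ⊆ ·),
      #((K.filter (e ⊆ ·)).bipartiteAbove (fun σ T => σ ⊆ T) σ) =
      ∑ σ ∈ (faces K (n - 1)).filter (e ⊆ ·), #(K.filter (σ ⊆ ·)) := by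
    refine sum_congr rfl (fun σ hσ => ?_)
    rw [mem_filter] at hσ
    congr 1
    ext T
    rw [mem_bipartiteAbove, mem_filter, mem_filter]
    exact ⟨fun h => ⟨h.1.1, h.2⟩, fun h => ⟨⟨h.1, hσ.2.trans h.2⟩, h.2⟩⟩
  have h6 : ∑ T ∈ K.filter (e ⊆ ·),
      #(((faces K (n - 1)).filter (e ⊆ ·)).bipartiteBelow (fun σ T => σ ⊆ T) T) =
      ∑ T ∈ K.filter (e ⊆ ·), (n - 1).choose 2 := by
    refine sum_congr rfl (fun T hT => ?_)
    rw [mem_filter] at hT
    rw [← card_between hn (hK T hT.1) he hT.2]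
    congr 1
    ext σ
    rw [mem_bipartiteBelow, mem_filter, mem_filter, mem_powersetCard]
    constructor
    · rintro ⟨⟨h7, h8⟩, h9⟩
      unfold faces at h7
      rw [mem_biUnion] at h7
      obtain ⟨T', -, h10⟩ := h7
      rw [mem_powersetCard] at h10
      exact ⟨⟨h9, h10.2⟩, h8⟩
    · rintro ⟨⟨h9, h10⟩, h8⟩
      refine ⟨⟨?_, h8⟩, h9⟩
      unfold faces
      rw [mem_biUnion]
      exact ⟨T, hT.1, mem_powersetCard.2 ⟨h9, h10⟩⟩
  rw [← h5, h4, h6, sum_const, smul_eq_mul, mul_comm]

/-- the two ordered pairs of a codimension two face -/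
theorem pair_sum {T σ : Finset V} {n : ℕ} (hn : 1 ≤ n) (hT : #T = n + 1) (hσ : #σ = n - 1)
    (f : V → V → ℝ) (c : ℝ) (hf : ∀ k ∈ T, ∀ l ∈ T, k ≠ l → f k l = c) :
    ∑ k ∈ T, ∑ l ∈ T, (if k ≠ l ∧ (T.erase k).erase l = σ then f k l else 0) =
      if σ ⊆ T then 2 * c else 0 := by
  by_cases h : σ ⊆ T
  · have hc : #(T \ σ) = 2 := by
      rw [card_sdiff_of_subset h]
      omega
    obtain ⟨a, b, hab, hs⟩ := card_eq_two.1 hc
    have haT : a ∈ T := (mem_sdiff.1 (hs ▸ mem_insert_self a {b})).1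
    have hbT : b ∈ T := (mem_sdiff.1 (hs ▸ mem_insert_of_mem (mem_singleton_self b))).1
    have key : ∀ k ∈ T, ∀ l ∈ T, (if k ≠ l ∧ (T.erase k).erase l = σ then f k l else 0) =
        (if k = a then (if l = b then c else 0) else 0) +
          (if k = b then (if l = a then c else 0) else 0) := by
      intro k hk l hl
      have hi : (k ≠ l ∧ (T.erase k).erase l = σ) ↔ ((k = a ∧ l = b) ∨ (k = b ∧ l = a)) := by
        constructor
        · rintro ⟨hkl, he⟩
          have hk' : k ∈ T \ σ := by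
            rw [mem_sdiff, ← he]
            exact ⟨hk, by simp⟩
          have hl' : l ∈ T \ σ := by
            rw [mem_sdiff, ← he]
            exact ⟨hl, by simp⟩
          rw [hs, mem_insert, mem_singleton] at hk' hl'
          rcases hk' with h1 | h1 <;> rcases hl' with h2 | h2
          · exact absurd (h1.trans h2.symm) hkl
          · exact Or.inl ⟨h1, h2⟩
          · exact Or.inr ⟨h1, h2⟩
          · exact absurd (h1.trans h2.symm) hkl
        · have hσ' : ∀ x, x ∈ σ ↔ x ∈ T ∧ x ≠ a ∧ x ≠ b := by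
            intro x
            constructor
            · intro hx
              refine ⟨h hx, ?_, ?_⟩
              · rintro rfl
                exact (mem_sdiff.1 (hs ▸ mem_insert_self x {b} : x ∈ T \ σ)).2 hx
              · rintro rfl
                exact (mem_sdiff.1 (hs ▸ mem_insert_of_mem (mem_singleton_self x) :
                  x ∈ T \ σ)).2 hx
            · rintro ⟨hx, h1, h2⟩
              by_contra h3
              have : x ∈ T \ σ := mem_sdiff.2 ⟨hx, h3⟩
              rw [hs, mem_insert, mem_singleton] at this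
              rcases this with h4 | h4
              · exact h1 h4
              · exact h2 h4
          rintro (⟨rfl, rfl⟩ | ⟨rfl, rfl⟩)
          · refine ⟨hab, ?_⟩
            ext x
            rw [hσ', mem_erase, mem_erase]
            tauto
          · refine ⟨hab.symm, ?_⟩
            ext x
            rw [hσ', mem_erase, mem_erase]
            tauto
      by_cases hkl : k = l
      · subst hkl
        rw [if_neg (by simp)]
        by_cases h1 : k = a
        · subst h1
          simp [hab]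
        · by_cases h2 : k = b
          · subst h2
            simp [h1]
          · simp [h1, h2]
      · rw [if_congr hi rfl rfl, hf k hk l hl hkl]
        by_cases h1 : k = a
        · subst h1
          by_cases h2 : l = b
          · simp [h2, hab]
          · simp [h2, hab]
        · by_cases h3 : k = b
          · subst h3
            simp [h1]
          · simp [h1, h3]
    rw [if_pos h]
    rw [sum_congr rfl (fun k hk => sum_congr rfl (fun l hl => key k hk l hl))]
    simp only [sum_add_distrib]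
    have e1 : ∑ k ∈ T, ∑ l ∈ T, (if k = a then (if l = b then c else 0) else 0) = c := by
      have : ∀ k ∈ T, ∑ l ∈ T, (if k = a then (if l = b then c else 0) else 0) =
          if k = a then c else 0 := by
        intro k _
        by_cases hk : k = a
        · simp [hk, hbT]
        · simp [hk]
      rw [sum_congr rfl this]
      simp [haT]
    have e2 : ∑ k ∈ T, ∑ l ∈ T, (if k = b then (if l = a then c else 0) else 0) = c := by
      have : ∀ k ∈ T, ∑ l ∈ T, (if k = b then (if l = a then c else 0) else 0) =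
          if k = b then c else 0 := by
        intro k _
        by_cases hk : k = b
        · simp [hk, haT]
        · simp [hk]
      rw [sum_congr rfl this]
      simp [hbT]
    rw [e1, e2]
    ring
  · rw [if_neg h]
    refine sum_eq_zero (fun k _ => sum_eq_zero (fun l _ => ?_))
    rw [if_neg]
    rintro ⟨-, he⟩
    apply h
    rw [← he]
    exact (erase_subset _ _).trans (erase_subset _ _)

theorem ang_one {n : ℕ} (hn : 4 ≤ n) {T : Finset V} (hT : #T = n + 1) {k l : V} (hk : k ∈ T)
    (hl : l ∈ T) (hkl : k ≠ l) : ang (fun _ => 1) T k l = arccos (1 / n) := by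
  have hn0 : (4 : ℝ) ≤ n := by exact_mod_cast hn
  obtain ⟨-, p1, p2, -⟩ := pyramid (z := fun _ => 1) hk hT (by omega) (t := 1) (by
    nlinarith) (fun _ _ _ _ _ _ _ => rfl) (fun _ _ _ => rfl)
  obtain ⟨-, q1, -, -⟩ := pyramid (z := fun _ => 1) hl hT (by omega) (t := 1) (by
    nlinarith) (fun _ _ _ _ _ _ _ => rfl) (fun _ _ _ => rfl)
  have p3 := p2 l hl hkl.symm
  unfold ang
  rw [p1, p3, q1]
  have e1 : (-(n : ℝ) / (2 * (1 / 2 + n * (1 - 1 / 2))) * (-(n : ℝ) / (2 * (1 / 2 + n * (1 - 1 / 2))))) =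
      (n / (n + 1)) ^ 2 := by
    field_simp
    ring
  rw [e1, sqrt_sq (by positivity)]
  congr 1
  field_simp
  ring

theorem curv_one {n : ℕ} (hn : 4 ≤ n) {K : Finset (Finset V)} (hK : Pure n K) {σ : Finset V}
    (hσ : #σ = n - 1) :
    curv K (fun _ => 1) σ = 1 - #(K.filter (σ ⊆ ·)) * arccos (1 / n) / (2 * π) := by
  unfold curv
  congr 1
  have h1 : ∀ T ∈ K, ∑ k ∈ T, ∑ l ∈ T,
      (if k ≠ l ∧ (T.erase k).erase l = σ then ang (fun _ => 1) T k l / (4 * π) else 0) =
      if σ ⊆ T then arccos (1 / n) / (2 * π) else 0 := by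
    intro T hT
    rw [pair_sum (by omega) (hK T hT) hσ (fun k l => ang (fun _ => 1) T k l / (4 * π))
      (arccos (1 / n) / (4 * π)) (by
        intro k hk l hl hkl
        rw [ang_one hn (hK T hT) hk hl hkl])]
    congr 1
    have := pi_pos
    field_simp
    ring
  rw [sum_congr rfl h1, ← sum_filter, sum_const, nsmul_eq_mul]
  ring

theorem ein_one {n s d : ℕ} (hn : 4 ≤ n) {K : Finset (Finset V)} (hK : Pure n K)
    {x y : V} (hxy : x ≠ y)
    (hs : #((faces K (n - 1)).filter ({x, y} ⊆ ·)) = s) (hd : #(K.filter ({x, y} ⊆ ·)) = d) :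
    ein n K (fun _ => 1) x y =
      kap n * ((s - (n - 1).choose 2 * d * arccos (1 / n) / (2 * π)) * √(n - 1 : ℝ) / (n - 1)) := by
  have hn0 : (4 : ℝ) ≤ n := by exact_mod_cast hn
  unfold ein
  have hfil : (faces K (n - 1)).filter (fun σ => x ∈ σ ∧ y ∈ σ) =
      (faces K (n - 1)).filter ({x, y} ⊆ ·) := by
    ext σ
    rw [mem_filter, mem_filter, insert_subset_iff, singleton_subset_iff]
  rw [hfil]
  have hcard : ∀ σ ∈ faces K (n - 1), #σ = n - 1 := by
    intro σ hσ
    unfold faces at hσ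
    rw [mem_biUnion] at hσ
    obtain ⟨T, -, h⟩ := hσ
    exact (mem_powersetCard.1 h).2
  have h1 : ∀ σ ∈ (faces K (n - 1)).filter ({x, y} ⊆ ·),
      curv K (fun _ => 1) σ * (vol (fun _ => 1) σ * Q (fun _ => 1) σ x y) =
      (1 - #(K.filter (σ ⊆ ·)) * arccos (1 / n) / (2 * π)) *
        (kap n * √(n - 1 : ℝ) / (n - 1)) := by
    intro σ hσ
    rw [mem_filter] at hσ
    have hc := hcard σ hσ.1
    have hx : x ∈ σ := hσ.2 (mem_insert_self _ _)
    have hy : y ∈ σ := hσ.2 (mem_insert_of_mem (mem_singleton_self _))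
    have hc' : #σ = (n - 2) + 1 := by omega
    have hcast : ((n - 2 : ℕ) : ℝ) = n - 2 := by
      rw [Nat.cast_sub (by omega)]
      norm_num
    obtain ⟨d1, p1, p2, -⟩ := pyramid (z := fun _ => 1) hx hc' (by omega) (t := 1) (by
      rw [hcast]
      nlinarith) (fun _ _ _ _ _ _ _ => rfl) (fun _ _ _ => rfl)
    rw [curv_one hn hK hc, p2 y hy hxy.symm]
    congr 1
    unfold vol kap
    rw [d1, hc', hcast, Nat.add_sub_cancel]
    have e1 : (1 + 2 * ((n : ℝ) - 2) * (1 - 1 / 2)) / (2 ^ (n - 2) * ((n - 2).factorial : ℝ) ^ 2) =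
        (1 / (2 ^ (n - 2) * ((n - 2).factorial : ℝ) ^ 2)) * (n - 1) := by
      ring
    rw [e1, sqrt_mul (by positivity)]
    have e2 : (1 : ℝ) / (2 * (1 / 2 + ((n : ℝ) - 2) * (1 - 1 / 2))) = 1 / (n - 1) := by
      congr 1
      ring
    rw [e2]
    ring
  rw [sum_congr rfl h1, ← sum_mul, sum_sub_distrib, sum_const, hs, nsmul_eq_mul, mul_one]
  have h2 : ∑ σ ∈ (faces K (n - 1)).filter ({x, y} ⊆ ·),
      (#(K.filter (σ ⊆ ·)) : ℝ) * arccos (1 / n) / (2 * π) =
      (n - 1).choose 2 * d * arccos (1 / n) / (2 * π) := by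
    rw [← sum_div, ← sum_mul]
    have := sum_deg hn hK (e := {x, y}) (card_pair hxy)
    rw [hd] at this
    have h3 : (∑ σ ∈ (faces K (n - 1)).filter ({x, y} ⊆ ·), (#(K.filter (σ ⊆ ·)) : ℝ)) =
        (n - 1).choose 2 * d := by
      exact_mod_cast this
    rw [h3]
  rw [h2]
  ring

end Pool.Agent.H50En.One
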