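import Pool.Agent.H50En.Defs

set_option autoImplicit false

/-!
# Realisation of the pyramid over a regular simplex
-/

namespace Pool.Agent.H50En.Rlz

open Real Finset

private noncomputable def q (n : ℕ) (c : ℝ) : Option (Fin n) → EuclideanSpace ℝ (Fin n)
  | none => WithLp.toLp 2 fun _ => c
  | some i => WithLp.toLp 2 fun k => if k = i then √2 / 2 else 0

private theorem q_ss {n : ℕ} (c : ℝ) {i j : Fin n} (h : i ≠ j) :
    dist (q n c (some i)) (q n c (some j)) ^ 2 = 1 := by
  have h2 : √2 ^ 2 = (2 : ℝ) := Real.sq_sqrt (by norm_num)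
  rw [EuclideanSpace.dist_eq, Real.sq_sqrt (by positivity)]
  have e : ∀ k : Fin n, dist ((q n c (some i)).ofLp k) ((q n c (some j)).ofLp k) ^ 2 =
      (if k = i then (1 / 2 : ℝ) else 0) + (if k = j then (1 / 2 : ℝ) else 0) := by
    intro k
    simp only [q, Real.dist_eq, sq_abs]
    by_cases hi : k = i
    · have hj : k ≠ j := fun hj => h (hi.symm.trans hj)
      rw [if_pos hi, if_neg hj, if_pos hi, if_neg hj]
      nlinarith
    · by_cases hj : k = j
      · rw [if_neg hi, if_pos hj, if_neg hi, if_pos hj]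
        nlinarith
      · rw [if_neg hi, if_neg hj, if_neg hi, if_neg hj]
        norm_num
  rw [Finset.sum_congr rfl fun k _ => e k, Finset.sum_add_distrib, Finset.sum_ite_eq',
    Finset.sum_ite_eq', if_pos (Finset.mem_univ _), if_pos (Finset.mem_univ _)]
  norm_num

private theorem q_ns {n : ℕ} (c : ℝ) (i : Fin n) :
    dist (q n c none) (q n c (some i)) ^ 2 = n * c ^ 2 - √2 * c + 1 / 2 := by
  have h2 : √2 ^ 2 = (2 : ℝ) := Real.sq_sqrt (by norm_num)
  rw [EuclideanSpace.dist_eq, Real.sq_sqrt (by positivity)]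
  have e : ∀ k : Fin n, dist ((q n c none).ofLp k) ((q n c (some i)).ofLp k) ^ 2 =
      c ^ 2 + (if k = i then (1 / 2 - √2 * c : ℝ) else 0) := by
    intro k
    simp only [q, Real.dist_eq, sq_abs]
    by_cases hi : k = i
    · rw [if_pos hi, if_pos hi]
      nlinarith
    · rw [if_neg hi, if_neg hi]
      ring
  rw [Finset.sum_congr rfl fun k _ => e k, Finset.sum_add_distrib, Finset.sum_ite_eq',
    if_pos (Finset.mem_univ _)]
  simp only [Finset.sum_const, Finset.card_univ, Fintype.card_fin, nsmul_eq_mul]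
  ring

private theorem q_ind {n : ℕ} {c : ℝ} (hc : n * c ≠ √2 / 2) : AffineIndependent ℝ (q n c) := by
  classical
  have h2 : √2 ^ 2 = (2 : ℝ) := Real.sq_sqrt (by norm_num)
  have h20 : √2 ≠ 0 := by positivity
  rw [affineIndependent_iff]
  intro S w hw hp
  set w' : Option (Fin n) → ℝ := fun o => if o ∈ S then w o else 0 with hw'
  have s1 : ∑ o, w' o = 0 := by
    rw [← hw]
    simp only [hw']
    rw [Finset.sum_ite_mem, Finset.univ_inter]
  have s2 : ∑ o, w' o • q n c o = 0 := by
    rw [← hp]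
    simp only [hw', ite_smul, zero_smul]
    rw [Finset.sum_ite_mem, Finset.univ_inter]
  have s3 : ∀ k : Fin n, w' none * c + w' (some k) * (√2 / 2) = 0 := by
    intro k
    have h := congrArg (fun v : EuclideanSpace ℝ (Fin n) => v.ofLp k) s2
    rw [Fintype.sum_option] at h
    simp only [WithLp.ofLp_add, WithLp.ofLp_smul, WithLp.ofLp_sum, Pi.add_apply, Pi.smul_apply,
      Finset.sum_apply, smul_eq_mul, WithLp.ofLp_zero, Pi.zero_apply, q] at h
    simp only [mul_ite, mul_zero, Finset.sum_ite_eq, Finset.mem_univ, if_true] at h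
    exact h
  rw [Fintype.sum_option] at s1
  have s4 : (n : ℝ) * (w' none * c) + (∑ k, w' (some k)) * (√2 / 2) = 0 := by
    have := Finset.sum_congr (rfl : (Finset.univ : Finset (Fin n)) = Finset.univ)
      fun k _ => s3 k
    rw [Finset.sum_add_distrib, Finset.sum_const, Finset.sum_const_zero, Finset.card_univ,
      Fintype.card_fin, nsmul_eq_mul, ← Finset.sum_mul] at this
    exact this
  have s5 : w' none * (n * c - √2 / 2) = 0 := by
    have : ∑ k, w' (some k) = - w' none := by linarith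
    rw [this] at s4
    linarith
  have s6 : w' none = 0 := by
    rcases mul_eq_zero.mp s5 with h | h
    · exact h
    · exact absurd (sub_eq_zero.mp h) hc
  have s7 : ∀ k, w' (some k) = 0 := by
    intro k
    have := s3 k
    rw [s6, zero_mul, zero_add] at this
    rcases mul_eq_zero.mp this with h | h
    · exact h
    · exact absurd h (by positivity)
  intro o ho
  have h8 : w' o = w o := by simp only [hw']; rw [if_pos ho]
  rw [← h8]
  cases o with
  | none => exact s6
  | some k => exact s7 k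

variable {V : Type} [DecidableEq V]

/-- G: realisation of the pyramid. -/
theorem realise {z : Sym2 V → ℝ} {s : Finset V} {a : V} (ha : a ∈ s) {n : ℕ} (hm : #s = n + 1)
    (hn : 1 ≤ n) {t : ℝ} (ht : 0 < 1 / 2 + n * (t - 1 / 2))
    (h1 : ∀ x ∈ s, ∀ y ∈ s, x ≠ a → y ≠ a → x ≠ y → z s(x, y) = 1)
    (h2 : ∀ x ∈ s, x ≠ a → z s(a, x) = t) :
    ∃ p : s → EuclideanSpace ℝ (Fin n), AffineIndependent ℝ p ∧
      ∀ a b : s, a ≠ b → Dist.dist (p a) (p b) ^ 2 = z s(a.1, b.1) := by
  classical
  let A : s := ⟨a, ha⟩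
  have hcard : Fintype.card {x : s // x ≠ A} = n := by
    have h3 : Fintype.card {x : s // ¬ x = A} = Fintype.card s - Fintype.card {x : s // x = A} :=
      Fintype.card_subtype_compl _
    have h4 : Fintype.card {x : s // x = A} = 1 := Fintype.card_subtype_eq A
    have h5 : Fintype.card s = n + 1 := by rw [Fintype.card_coe, hm]
    rw [h4, h5] at h3
    simpa using h3
  let e : {x : s // x ≠ A} ≃ Fin n := Fintype.equivFinOfCardEq hcard
  let φ : s ≃ Option (Fin n) := (Equiv.optionSubtypeNe A).symm.trans (Equiv.optionCongr e)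
  have hφA : φ A = none := by simp [φ]
  have hφ : ∀ x : s, x ≠ A → ∃ i, φ x = some i := by
    intro x hx
    cases h : φ x with
    | none => exact absurd (φ.injective (h.trans hφA.symm)) hx
    | some i => exact ⟨i, rfl⟩
  have hn0 : (0 : ℝ) < n := by exact_mod_cast hn
  have hsq2 : √2 ^ 2 = (2 : ℝ) := Real.sq_sqrt (by norm_num)
  set D : ℝ := 1 / 2 + n * (t - 1 / 2) with hD
  have hD1 : 0 < √D := Real.sqrt_pos.2 ht
  have hD2 : √D ^ 2 = D := Real.sq_sqrt ht.le
  set c : ℝ := (√2 / 2 + √D) / n with hc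
  have hnc : (n : ℝ) * c = √2 / 2 + √D := by
    rw [hc]
    field_simp
  have hct : (n : ℝ) * c ^ 2 - √2 * c + 1 / 2 = t := by
    have h3 : (n : ℝ) * ((n : ℝ) * c ^ 2 - √2 * c + 1 / 2) = n * t := by
      have h4 : (n : ℝ) * ((n : ℝ) * c ^ 2 - √2 * c + 1 / 2) =
          (n * c) ^ 2 - √2 * (n * c) + n / 2 := by ring
      rw [h4, hnc]
      have h5 : (√2 / 2 + √D) ^ 2 - √2 * (√2 / 2 + √D) + (n : ℝ) / 2 =
          √D ^ 2 - √2 ^ 2 / 4 + n / 2 := by ring
      rw [h5, hD2, hsq2, hD]
      ring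
    exact mul_left_cancel₀ hn0.ne' h3
  refine ⟨fun x => q n c (φ x), ?_, ?_⟩
  · exact (q_ind (by rw [hnc]; linarith)).comp_embedding φ.toEmbedding
  · intro x y hxy
    show dist (q n c (φ x)) (q n c (φ y)) ^ 2 = _
    by_cases hx : x = A
    · have hy : y ≠ A := fun h => hxy (hx.trans h.symm)
      obtain ⟨j, hj⟩ := hφ y hy
      rw [hx, hφA, hj, q_ns, hct]
      exact (h2 y.1 y.2 fun h => hy (Subtype.ext h)).symm
    · obtain ⟨i, hi⟩ := hφ x hx
      by_cases hy : y = A
      · rw [hy, hφA, hi, dist_comm, q_ns, hct, Sym2.eq_swap]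
        exact (h2 x.1 x.2 fun h => hx (Subtype.ext h)).symm
      · obtain ⟨j, hj⟩ := hφ y hy
        have hij : i ≠ j := by
          intro h
          apply hxy
          apply φ.injective
          rw [hi, hj, h]
        rw [hi, hj, q_ss c hij]
        exact (h1 x.1 x.2 y.1 y.2 (fun h => hx (Subtype.ext h)) (fun h => hy (Subtype.ext h))
          fun h => hxy (Subtype.ext h)).symm

end Pool.Agent.H50En.Rlz
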