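import Pool.Agent.H50En.Old
import Pool.Agent.H50En.One
import Pool.Agent.H50En.Cnt
import Pool.Agent.H50En.Ivt
import Pool.Agent.H50En.Rlz

/-! Assembly. -/

namespace Pool.Agent.H50En

open Real Finset Pool.Agent.H50En.Der

variable {V : Type} [DecidableEq V]

theorem mem_cone {K : Finset (Finset V)} {S : Finset (V ⊕ Finset V)} :
    S ∈ cone K ↔ ∃ T ∈ K, ∃ v ∈ T,
      insert (Sum.inr T) ((T.erase v).map ⟨Sum.inl, Sum.inl_injective⟩) = S := by
  unfold cone
  simp only [mem_biUnion, mem_image]

theorem card_pyr {n : ℕ} {K : Finset (Finset V)} (hK : Pure n K) {T : Finset V} (hT : T ∈ K)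
    {v : V} (hv : v ∈ T) :
    #(insert (Sum.inr T) ((T.erase v).map ⟨Sum.inl, Sum.inl_injective⟩) :
      Finset (V ⊕ Finset V)) = n + 1 := by
  rw [card_insert_of_notMem (by simp), card_map, card_erase_of_mem hv, hK T hT]
  omega

theorem cone_pure {n : ℕ} {K : Finset (Finset V)} (hK : Pure n K) : Pure n (cone K) := by
  intro S hS
  obtain ⟨T, hT, v, hv, rfl⟩ := mem_cone.1 hS
  exact card_pyr hK hT hv

/-- The conditions of Regge's formula for a pyramid. -/
theorem pyr_ok {z : Sym2 V → ℝ} {s : Finset V} {a : V} (ha : a ∈ s) {m : ℕ} (hm : #s = m + 1)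
    (hm1 : 2 ≤ m) {t : ℝ} (ht : 0 < 1 / 2 + m * (t - 1 / 2))
    (h1 : ∀ x ∈ s, ∀ y ∈ s, x ≠ a → y ≠ a → x ≠ y → z s(x, y) = 1)
    (h2 : ∀ x ∈ s, x ≠ a → z s(a, x) = t) :
    (CM z s).det ≠ 0 ∧ (∀ k ∈ s, Q z s k k < 0) ∧
      ∀ k ∈ s, ∀ l ∈ s, k ≠ l → 0 < Q z s k k * Q z s l l - Q z s k l ^ 2 := by
  obtain ⟨d1, d2, d3, d4, d5⟩ := Pyr.pyramid ha hm (by omega) ht h1 h2
  have hm0 : (2 : ℝ) ≤ m := by exact_mod_cast hm1
  set c := t - 1 / 2 with hc
  set E := 1 / 2 + m * c with hE
  have hE1 : 0 < 1 / 2 + (m - 1) * c := by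
    rcases le_or_gt 0 c with h | h
    · have : 0 ≤ (m - 1) * c := mul_nonneg (by linarith) h
      linarith
    · nlinarith
  have hE2 : 0 < 1 / 2 + (m - 2) * c := by
    rcases le_or_gt 0 c with h | h
    · have : 0 ≤ (m - 2) * c := mul_nonneg (by linarith) h
      linarith
    · nlinarith
  have hkk : ∀ k ∈ s, Q z s k k < 0 := by
    intro k hk
    by_cases h : k = a
    · subst h
      rw [d2, neg_div]
      have : 0 < (m : ℝ) / (2 * E) := by positivity
      linarith
    · rw [d4 k hk h, neg_div]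
      have : 0 < (1 / 2 + (m - 1) * c) / E := by positivity
      linarith
  have key : ∀ k ∈ s, ∀ l ∈ s, k = a → k ≠ l → 0 < Q z s k k * Q z s l l - Q z s k l ^ 2 := by
    intro k hk l hl h hkl
    subst h
    have hl' : l ≠ k := fun h => hkl h.symm
    rw [d2, d4 l hl hl', d3 l hl hl']
    have : - (m : ℝ) / (2 * E) * (-(1 / 2 + (m - 1) * c) / E) - (1 / (2 * E)) ^ 2 =
        (2 * m * (1 / 2 + (m - 1) * c) - 1) / (4 * E ^ 2) := by
      field_simp
      ring
    rw [this]
    apply div_pos _ (by positivity)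
    have h6 : 2 * (m : ℝ) * (1 / 2 + (m - 1) * c) - 1 = (m - 1) * (2 * E) := by
      rw [hE]; ring
    rw [h6]
    apply mul_pos (by linarith) (by linarith)
  refine ⟨?_, hkk, ?_⟩
  · intro h0
    rw [h0, abs_zero] at d1
    have : 1 + 2 * m * c = 2 * E := by rw [hE]; ring
    linarith
  · intro k hk l hl hkl
    by_cases h : k = a
    · exact key k hk l hl h hkl
    · by_cases h' : l = a
      · have := key l hl k hk h' (fun h => hkl h.symm)
        rw [Q_symm z s k l]
        linarith
      · rw [d4 k hk h, d4 l hl h', d5 k hk l hl h h' hkl]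
        have : -(1 / 2 + ((m : ℝ) - 1) * c) / E * (-(1 / 2 + (m - 1) * c) / E) - (c / E) ^ 2 =
            (1 / 2 + (m - 2) * c) * E / E ^ 2 := by
          rw [show (1 / 2 + ((m : ℝ) - 2) * c) * E = (1 / 2 + (m - 1) * c) ^ 2 - c ^ 2 by
            rw [hE]; ring]
          ring
        rw [this]
        positivity

/-- The metric on the cone: `1` on the old edges, `t` on the new ones. -/
noncomputable def zc (t : ℝ) : Sym2 (V ⊕ Finset V) → ℝ := by
  classical
  exact fun e => if ∃ (T : Finset V) (x : V), e = s(Sum.inr T, Sum.inl x) then t else 1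

theorem zc_old (t : ℝ) (x y : V) : zc t s(Sum.inl x, Sum.inl y) = 1 := by
  unfold zc
  rw [if_neg]
  rintro ⟨T, v, h⟩
  rcases Sym2.eq_iff.1 h with ⟨h1, -⟩ | ⟨-, h1⟩ <;> cases h1

theorem zc_new (t : ℝ) (T : Finset V) (x : V) : zc t s(Sum.inr T, Sum.inl x) = t := by
  unfold zc
  rw [if_pos ⟨T, x, rfl⟩]

theorem mem_faces_two {W : Type} [DecidableEq W] {K : Finset (Finset W)} {p q : W} (h : {p, q} ∈ faces K 2) :
    ∃ S ∈ K, p ∈ S ∧ q ∈ S := by
  unfold faces at h
  rw [mem_biUnion] at h
  obtain ⟨S, hS, h2⟩ := h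
  obtain ⟨h3, -⟩ := mem_powersetCard.1 h2
  exact ⟨S, hS, h3 (by simp), h3 (by simp)⟩

theorem main {n s d : ℕ} (hn : 4 ≤ n) {K : Finset (Finset V)} (hK : Pure n K)
    (hs : ∀ x y : V, x ≠ y → {x, y} ∈ faces K 2 →
      #((faces K (n - 1)).filter ({x, y} ⊆ ·)) = s)
    (hd : ∀ x y : V, x ≠ y → {x, y} ∈ faces K 2 → #(K.filter ({x, y} ⊆ ·)) = d)
    (h3 : ∀ σ ∈ faces K (n - 1), 3 ≤ #(K.filter (σ ⊆ ·))) :
    IsEinstein n K (fun _ => 1) ∧
    ∃ (t : ℝ) (z : Sym2 (V ⊕ Finset V) → ℝ), (n - 1 : ℝ) / (2 * n) < t ∧ t < 1 / 2 ∧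
      (∀ x y : V, z s(Sum.inl x, Sum.inl y) = 1) ∧
      (∀ (T : Finset V) (x : V), z s(Sum.inr T, Sum.inl x) = t) ∧ IsEinstein n (cone K) z := by
  have hn0 : (4 : ℝ) ≤ n := by exact_mod_cast hn
  constructor
  · constructor
    · intro T hT
      have hT1 := hK T hT
      obtain ⟨a, ha⟩ : T.Nonempty := card_pos.1 (by omega)
      exact Rlz.realise (z := fun _ => 1) ha hT1 (by omega) (t := 1) (by linarith)
        (fun _ _ _ _ _ _ _ => rfl) (fun _ _ _ => rfl)
    · refine ⟨kap n * ((s - (n - 1).choose 2 * d * arccos (1 / n) / (2 * π)) * √(n - 1 : ℝ) / (n - 1)),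
        fun x y hxy he => ?_⟩
      have h := regge (n := n) (by omega) hK (z := fun _ => 1) (fun T hT => by
        have hT1 := hK T hT
        obtain ⟨a, ha⟩ : T.Nonempty := card_pos.1 (by omega)
        exact pyr_ok (z := fun _ => 1) ha hT1 (by omega) (t := 1) (by linarith) (fun _ _ _ _ _ _ _ => rfl)
          (fun _ _ _ => rfl)) hxy
      rw [One.ein_one hn hK hxy (hs x y hxy he) (hd x y hxy he)] at h
      rw [mul_one]
      exact h
  · by_cases hne : K = ∅
    · subst hne
      refine ⟨((n - 1 : ℝ) / (2 * n) + 1 / 2) / 2, zc _, ?_, ?_, fun x y => zc_old _ x y,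
        fun T x => zc_new _ T x, ?_, 0, ?_⟩
      · have : (n - 1 : ℝ) / (2 * n) < 1 / 2 := by
          rw [div_lt_div_iff₀ (by linarith) (by norm_num)]; linarith
        linarith
      · have : (n - 1 : ℝ) / (2 * n) < 1 / 2 := by
          rw [div_lt_div_iff₀ (by linarith) (by norm_num)]; linarith
        linarith
      · intro T hT
        simp [cone] at hT
      · intro x y _ h
        simp [cone, faces] at h
    · obtain ⟨T, hT⟩ := nonempty_iff_ne_empty.2 hne
      have hT1 := hK T hT
      obtain ⟨x, hx, y, hy, hxy⟩ := one_lt_card.1 (show 1 < #T by omega)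
      have he : {x, y} ∈ faces K 2 := by
        unfold faces
        rw [mem_biUnion]
        refine ⟨T, hT, mem_powersetCard.2 ⟨?_, card_pair hxy⟩⟩
        intro v hv
        rw [mem_insert, mem_singleton] at hv
        rcases hv with rfl | rfl <;> assumption
      have hs0 : 0 < s := by
        rw [← hs x y hxy he, card_pos]
        obtain ⟨σ, h1, h2, h4⟩ := exists_subsuperset_card_eq (s := {x, y}) (t := T) (n := n - 1)
          (by intro v hv
              rw [mem_insert, mem_singleton] at hv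
              rcases hv with rfl | rfl <;> assumption)
          (by rw [card_pair hxy]; omega) (by omega)
        exact ⟨σ, mem_filter.2 ⟨by
          unfold faces; rw [mem_biUnion]; exact ⟨T, hT, mem_powersetCard.2 ⟨h2, h4⟩⟩, h1⟩⟩
      have hsd := Cnt.count hn hK h3 (card_pair hxy) (hs x y hxy he) (hd x y hxy he)
      obtain ⟨t, ht0, ht1, ht⟩ := Ivt.ivt hn hs0 hsd
      have htE : 0 < 1 / 2 + (n : ℝ) * (t - 1 / 2) := by
        rw [div_lt_iff₀ (by linarith)] at ht0
        nlinarith
      refine ⟨t, zc t, ht0, ht1, fun x y => zc_old _ x y, fun T x => zc_new _ T x, ?_, ?_⟩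
      · intro S hS
        have hS1 := cone_pure hK S hS
        obtain ⟨T, hT, v, hv, rfl⟩ := mem_cone.1 hS
        refine Rlz.realise (a := Sum.inr T) (mem_insert_self _ _) hS1 (by omega) (t := t) htE ?_ ?_
        · intro p hp q hq hpa hqa hpq
          rw [mem_insert, or_iff_right hpa, mem_map] at hp
          rw [mem_insert, or_iff_right hqa, mem_map] at hq
          obtain ⟨p', -, rfl⟩ := hp
          obtain ⟨q', -, rfl⟩ := hq
          exact zc_old _ _ _
        · intro p hp hpa
          rw [mem_insert, or_iff_right hpa, mem_map] at hp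
          obtain ⟨p', -, rfl⟩ := hp
          exact zc_new _ _ _
      · have hok : ∀ S ∈ cone K, (CM (zc t) S).det ≠ 0 ∧ (∀ k ∈ S, Q (zc t) S k k < 0) ∧
            ∀ k ∈ S, ∀ l ∈ S, k ≠ l → 0 < Q (zc t) S k k * Q (zc t) S l l - Q (zc t) S k l ^ 2 := by
          intro S hS
          have hS1 := cone_pure hK S hS
          obtain ⟨T, hT, v, hv, rfl⟩ := mem_cone.1 hS
          refine pyr_ok (a := Sum.inr T) (mem_insert_self _ _) hS1 (by omega) (t := t) htE ?_ ?_
          · intro p hp q hq hpa hqa hpq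
            rw [mem_insert, or_iff_right hpa, mem_map] at hp
            rw [mem_insert, or_iff_right hqa, mem_map] at hq
            obtain ⟨p', -, rfl⟩ := hp
            obtain ⟨q', -, rfl⟩ := hq
            exact zc_old _ _ _
          · intro p hp hpa
            rw [mem_insert, or_iff_right hpa, mem_map] at hp
            obtain ⟨p', -, rfl⟩ := hp
            exact zc_new _ _ _
        refine ⟨kap n * fa n s d t, fun p q hpq he => ?_⟩
        have h := regge (n := n) (by omega) (cone_pure hK) hok hpq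
        refine h.congr_deriv ?_
        obtain ⟨S, hS, hp, hq⟩ := mem_faces_two he
        obtain ⟨T, hT, v, hv, rfl⟩ := mem_cone.1 hS
        rw [mem_insert, mem_map] at hp hq
        have hnew : ∀ x ∈ T, ein n (cone K) (zc t) (Sum.inr T) (Sum.inl x) =
            kap n * fa n s d t * zc t s(Sum.inr T, Sum.inl x) := by
          intro x hx
          rw [Cn.ein_new hn hK hT hx htE ht1 (fun x y _ => zc_old _ x y) (fun T x => zc_new _ T x),
            zc_new, ht]
          ring
        rcases hp with rfl | ⟨x, hx, rfl⟩ <;> rcases hq with rfl | ⟨y, hy, rfl⟩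
        · exact absurd rfl hpq
        · exact hnew y (mem_of_mem_erase hy)
        · have hc : ein n (cone K) (zc t) (Sum.inl x) (Sum.inr T) =
              ein n (cone K) (zc t) (Sum.inr T) (Sum.inl x) := by
            unfold ein
            refine sum_congr ?_ fun σ _ => ?_
            · ext σ; simp only [mem_filter, and_comm (a := Sum.inl x ∈ σ)]
            · rw [Q_symm]
          show ein n (cone K) (zc t) (Sum.inl x) (Sum.inr T) =
            kap n * fa n s d t * zc t s(Sum.inl x, Sum.inr T)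
          rw [hc, hnew x (mem_of_mem_erase hx), Sym2.eq_swap]
        · have hxy' : x ≠ y := fun h => hpq (by rw [h])
          have he' : {x, y} ∈ faces K 2 := by
            unfold faces
            rw [mem_biUnion]
            refine ⟨T, hT, mem_powersetCard.2 ⟨?_, card_pair hxy'⟩⟩
            intro v hv
            rw [mem_insert, mem_singleton] at hv
            rcases hv with rfl | rfl
            · exact mem_of_mem_erase hx
            · exact mem_of_mem_erase hy
          show ein n (cone K) (zc t) (Sum.inl x) (Sum.inl y) =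
            kap n * fa n s d t * zc t s(Sum.inl x, Sum.inl y)
          rw [Cn.ein_old hn hK hxy' (hs x y hxy' he') (hd x y hxy' he') htE ht1
            (fun x y _ => zc_old _ x y) (fun T x => zc_new _ T x), zc_old, mul_one]

end Pool.Agent.H50En
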