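import Pool.Agent.H50En.Final
import Pool.Agent.H50En.ExDefs

/-! The metric `1` is an Einstein metric only on edge-regular complexes. -/

namespace Pool.Agent.H50En

open Real Finset

variable {V : Type} [DecidableEq V]

theorem angle_irrational {n : ℕ} (hn : 4 ≤ n) (q : ℚ) : arccos (1 / n) ≠ q * π := by
  intro h
  have hn0 : (4 : ℝ) ≤ n := by exact_mod_cast hn
  have h1 : (0 : ℝ) < 1 / n := by positivity
  have h2 : (1 : ℝ) / n < 1 / 2 := by
    rw [div_lt_div_iff₀ (by linarith) (by norm_num)]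
    linarith
  have hc : cos (arccos (1 / n)) = 1 / n := Real.cos_arccos (by linarith) (by linarith)
  have h3 := niven (θ := arccos (1 / n)) ⟨q, h⟩ ⟨1 / n, by rw [hc]; push_cast; ring⟩
  rw [hc] at h3
  simp only [Set.mem_insert_iff, Set.mem_singleton_iff] at h3
  rcases h3 with h3 | h3 | h3 | h3 | h3 <;> linarith

theorem pair_of_mem {K : Finset (Finset V)} {e : Finset V} (he : e ∈ faces K 2) :
    ∃ x y, x ≠ y ∧ e = {x, y} := by
  unfold faces at he
  rw [mem_biUnion] at he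
  obtain ⟨T, -, h⟩ := he
  exact card_eq_two.1 (mem_powersetCard.1 h).2

theorem regular_of_einstein {n : ℕ} (hn : 4 ≤ n) {K : Finset (Finset V)} (hK : Pure n K)
    (hE : IsEinstein n K (fun _ => 1)) {e f : Finset V} (he : e ∈ faces K 2)
    (hf : f ∈ faces K 2) :
    #((faces K (n - 1)).filter (e ⊆ ·)) = #((faces K (n - 1)).filter (f ⊆ ·)) ∧
      #(K.filter (e ⊆ ·)) = #(K.filter (f ⊆ ·)) := by
  have hn0 : (4 : ℝ) ≤ n := by exact_mod_cast hn
  obtain ⟨-, c, hc⟩ := hE
  have key : ∀ e ∈ faces K 2, c = kap n * (((#((faces K (n - 1)).filter (e ⊆ ·)) : ℝ) -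
      (n - 1).choose 2 * #(K.filter (e ⊆ ·)) * arccos (1 / n) / (2 * π)) * √(n - 1 : ℝ) /
        (n - 1)) := by
    intro e he
    obtain ⟨x, y, hxy, rfl⟩ := pair_of_mem he
    have h := regge (n := n) (by omega) hK (z := fun _ => 1) (fun T hT => by
      have hT1 := hK T hT
      obtain ⟨a, ha⟩ : T.Nonempty := card_pos.1 (by omega)
      exact pyr_ok (z := fun _ => 1) ha hT1 (by omega) (t := 1) (by linarith)
        (fun _ _ _ _ _ _ _ => rfl) (fun _ _ _ => rfl)) hxy
    rw [One.ein_one hn hK hxy rfl rfl] at h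
    have h2 := hc x y hxy he
    rw [mul_one] at h2
    exact h2.unique h
  have h1 := (key e he).symm.trans (key f hf)
  have hk : kap n ≠ 0 := by
    have : 0 < kap n := by
      unfold kap
      positivity
    exact this.ne'
  have hr : √(n - 1 : ℝ) / (n - 1) ≠ 0 := by
    have : 0 < √(n - 1 : ℝ) / (n - 1) :=
      div_pos (Real.sqrt_pos.2 (by linarith)) (by linarith)
    exact this.ne'
  rw [mul_right_inj' hk] at h1
  replace h1 : ((#((faces K (n - 1)).filter (e ⊆ ·)) : ℝ) -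
      (n - 1).choose 2 * #(K.filter (e ⊆ ·)) * arccos (1 / n) / (2 * π)) *
        (√(n - 1 : ℝ) / (n - 1)) = ((#((faces K (n - 1)).filter (f ⊆ ·)) : ℝ) -
      (n - 1).choose 2 * #(K.filter (f ⊆ ·)) * arccos (1 / n) / (2 * π)) *
        (√(n - 1 : ℝ) / (n - 1)) := by
    rw [← mul_div_assoc, ← mul_div_assoc]
    exact h1
  rw [mul_left_inj' hr] at h1
  set s1 := #((faces K (n - 1)).filter (e ⊆ ·))
  set s2 := #((faces K (n - 1)).filter (f ⊆ ·))
  set d1 := #(K.filter (e ⊆ ·))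
  set d2 := #(K.filter (f ⊆ ·))
  have hC : (0 : ℝ) < (n - 1).choose 2 := by
    exact_mod_cast Nat.choose_pos (by omega)
  have hd : d1 = d2 := by
    by_contra hne
    have hd0 : (d1 : ℝ) - d2 ≠ 0 := by
      intro h
      exact hne (by exact_mod_cast sub_eq_zero.1 h)
    refine angle_irrational hn (2 * (s1 - s2) / ((n - 1).choose 2 * (d1 - d2))) ?_
    push_cast
    have h3 : ((n - 1).choose 2 : ℝ) * (d1 - d2) ≠ 0 := mul_ne_zero hC.ne' hd0
    rw [div_mul_eq_mul_div, eq_div_iff h3]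
    have h4 : ((s1 : ℝ) - s2) * (2 * π) = (n - 1).choose 2 * (d1 - d2) * arccos (1 / n) := by
      have hpi : (2 * π) ≠ 0 := by positivity
      have h5 : ((s1 : ℝ) - s2) = (n - 1).choose 2 * (d1 - d2) * arccos (1 / n) / (2 * π) := by
        have : ((n - 1).choose 2 : ℝ) * (d1 - d2) * arccos (1 / n) / (2 * π) =
            (n - 1).choose 2 * d1 * arccos (1 / n) / (2 * π) -
            (n - 1).choose 2 * d2 * arccos (1 / n) / (2 * π) := by ring
        rw [this]
        linarith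
      rw [h5]
      field_simp
    linarith
  refine ⟨?_, hd⟩
  rw [hd] at h1
  have : (s1 : ℝ) = s2 := by linarith
  exact_mod_cast this

theorem einstein_iff {n : ℕ} (hn : 4 ≤ n) {K : Finset (Finset V)} (hK : Pure n K)
    (h3 : ∀ σ ∈ faces K (n - 1), 3 ≤ #(K.filter (σ ⊆ ·))) :
    IsEinstein n K (fun _ => 1) ↔ EdgeRegular n K := by
  constructor
  · intro hE
    rcases (faces K 2).eq_empty_or_nonempty with h0 | ⟨f, hf⟩
    · refine ⟨hK, ⟨0, fun e he => ?_⟩, ⟨0, fun e he => ?_⟩, h3⟩ <;>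
        rw [h0] at he <;> exact absurd he (notMem_empty _)
    · exact ⟨hK, ⟨_, fun e he => (regular_of_einstein hn hK hE he hf).1⟩,
        ⟨_, fun e he => (regular_of_einstein hn hK hE he hf).2⟩, h3⟩
  · rintro ⟨hK, ⟨s, hs⟩, ⟨d, hd⟩, h3⟩
    exact (main hn hK (fun _ _ _ he => hs _ he) (fun _ _ _ he => hd _ he) h3).1

end Pool.Agent.H50En
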