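import Pool.Agent.H50En.Der

/-! Jacobi's identity (package B2). -/

namespace Pool.Agent.H50En.Der

open Real Finset Pool.Agent.H50En

/-- Jacobi's identity for complementary minors, in block form -/
theorem det_block {m n : Type*} [Fintype m] [Fintype n] [DecidableEq m] [DecidableEq n]
    (M N : Matrix (m ⊕ n) (m ⊕ n) ℝ) (h : M * N = 1) :
    M.toBlocks₁₁.det = M.det * N.toBlocks₂₂.det := by
  have h1 := h
  rw [← Matrix.fromBlocks_toBlocks M, ← Matrix.fromBlocks_toBlocks N, Matrix.fromBlocks_multiply,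
    ← Matrix.fromBlocks_one, Matrix.fromBlocks_inj] at h1
  obtain ⟨-, h2, -, h3⟩ := h1
  have h4 : M * Matrix.fromBlocks 1 N.toBlocks₁₂ 0 N.toBlocks₂₂ =
      Matrix.fromBlocks M.toBlocks₁₁ 0 M.toBlocks₂₁ 1 := by
    conv_lhs => rw [← Matrix.fromBlocks_toBlocks M]
    rw [Matrix.fromBlocks_multiply, h2, h3]
    simp
  have h5 := congrArg Matrix.det h4
  rw [Matrix.det_mul, Matrix.det_fromBlocks_zero₂₁, Matrix.det_fromBlocks_zero₁₂, Matrix.det_one,
    Matrix.det_one, one_mul, mul_one] at h5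
  exact h5.symm

variable {V : Type} [DecidableEq V]

/-- B2: Jacobi's identity. -/
theorem jacobi {z : Sym2 V → ℝ} {T : Finset V} (hD : (CM z T).det ≠ 0) {k l : V} (hk : k ∈ T)
    (hl : l ∈ T) (hkl : k ≠ l) :
    |(CM z ((T.erase k).erase l)).det| =
      |(CM z T).det| * |Q z T k k * Q z T l l - Q z T k l ^ 2| := by
  have hmem : ∀ i : ((T.erase k).erase l : Finset V), i.1 ∈ T := fun i =>
    Finset.mem_of_mem_erase (Finset.mem_of_mem_erase i.2)
  let g : Option ((T.erase k).erase l : Finset V) ⊕ Fin 2 → Option T :=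
    Sum.elim (fun o => o.elim none fun i => some ⟨i.1, hmem i⟩)
      (fun j => if j = 0 then some ⟨k, hk⟩ else some ⟨l, hl⟩)
  have hg : Function.Bijective g := by
    constructor
    · rintro ((_ | i) | j) ((_ | i') | j') h
      · rfl
      · simp [g] at h
      · simp only [g, Sum.elim_inl, Sum.elim_inr, Option.elim] at h
        split_ifs at h
      · simp [g] at h
      · simp only [g, Sum.elim_inl, Option.elim, Option.some.injEq, Subtype.mk.injEq] at h
        rw [Subtype.ext h]
      · exfalso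
        have h1 := i.2
        rw [Finset.mem_erase, Finset.mem_erase] at h1
        simp only [g, Sum.elim_inl, Sum.elim_inr, Option.elim] at h
        split_ifs at h
        · simp only [Option.some.injEq, Subtype.mk.injEq] at h
          exact h1.2.1 h
        · simp only [Option.some.injEq, Subtype.mk.injEq] at h
          exact h1.1 h
      · simp only [g, Sum.elim_inl, Sum.elim_inr, Option.elim] at h
        split_ifs at h
      · exfalso
        have h1 := i'.2
        rw [Finset.mem_erase, Finset.mem_erase] at h1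
        simp only [g, Sum.elim_inl, Sum.elim_inr, Option.elim] at h
        split_ifs at h
        · simp only [Option.some.injEq, Subtype.mk.injEq] at h
          exact h1.2.1 h.symm
        · simp only [Option.some.injEq, Subtype.mk.injEq] at h
          exact h1.1 h.symm
      · simp only [g, Sum.elim_inr] at h
        congr 1
        fin_cases j <;> fin_cases j' <;> simp_all [hkl.symm]
    · rintro (_ | ⟨i, hi⟩)
      · exact ⟨Sum.inl none, rfl⟩
      · by_cases h1 : i = k
        · subst h1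
          exact ⟨Sum.inr 0, rfl⟩
        · by_cases h2 : i = l
          · subst h2
            exact ⟨Sum.inr 1, rfl⟩
          · exact ⟨Sum.inl (some ⟨i, Finset.mem_erase.2 ⟨h2, Finset.mem_erase.2 ⟨h1, hi⟩⟩⟩), rfl⟩
  let e := Equiv.ofBijective g hg
  have h1 := det_block ((CM z T).submatrix e e) ((CM z T)⁻¹.submatrix e e) (by
    rw [Matrix.submatrix_mul_equiv, Matrix.mul_nonsing_inv _ (isUnit_iff_ne_zero.2 hD)]
    exact Matrix.submatrix_one_equiv e)
  rw [Matrix.det_submatrix_equiv_self] at h1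
  have h2 : ((CM z T).submatrix e e).toBlocks₁₁ = CM z ((T.erase k).erase l) := by
    ext a b
    rcases a with _ | a <;> rcases b with _ | b
    · rfl
    · rfl
    · rfl
    · change (if (⟨a.1, hmem a⟩ : T) = ⟨b.1, hmem b⟩ then 0 else z s(a.1, b.1)) =
        if a = b then 0 else z s(a.1, b.1)
      by_cases h : a = b
      · rw [if_pos h, if_pos (by rw [h])]
      · rw [if_neg h, if_neg]
        intro h'
        rw [Subtype.mk.injEq] at h'
        exact h (Subtype.ext h')
  have h3 : ((CM z T)⁻¹.submatrix e e).toBlocks₂₂.det =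
      Q z T k k * Q z T l l - Q z T k l ^ 2 := by
    rw [Matrix.det_fin_two]
    have e1 := Q_eq z (⟨k, hk⟩ : T) ⟨k, hk⟩
    have e2 := Q_eq z (⟨l, hl⟩ : T) ⟨l, hl⟩
    have e3 := Q_eq z (⟨k, hk⟩ : T) ⟨l, hl⟩
    have e4 := Q_eq z (⟨l, hl⟩ : T) ⟨k, hk⟩
    have e5 := Q_symm z T l k
    simp only at e1 e2 e3 e4
    rw [e5] at e4
    rw [sq, e1, e2]
    conv_rhs => rw [e3]
    have e6 : (CM z T)⁻¹ (some ⟨l, hl⟩) (some ⟨k, hk⟩) = (CM z T)⁻¹ (some ⟨k, hk⟩) (some ⟨l, hl⟩) :=
      inv_symm z T _ _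
    change (CM z T)⁻¹ (some ⟨k, hk⟩) (some ⟨k, hk⟩) * (CM z T)⁻¹ (some ⟨l, hl⟩) (some ⟨l, hl⟩) -
      (CM z T)⁻¹ (some ⟨k, hk⟩) (some ⟨l, hl⟩) * (CM z T)⁻¹ (some ⟨l, hl⟩) (some ⟨k, hk⟩) = _
    rw [e6]
  rw [h2, h3] at h1
  rw [h1, abs_mul]

end Pool.Agent.H50En.Der
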