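import Pool.Agent.H50En.Regge
import Pool.Agent.H50En.Pyr

/-! The Einstein vector of the coned complex at a new edge. -/

namespace Pool.Agent.H50En.Cn

open Real Finset Pool.Agent.H50En Pool.Agent.H50En.Pyr Pool.Agent.H50En.Der

variable {V : Type} [DecidableEq V]

/-- ordered pairs -/
theorem pair_sum {W : Type} [DecidableEq W] {T σ : Finset W} (hσ : σ ⊆ T) (hc : #T = #σ + 2)
    {f : W → W → ℝ} {c : ℝ} (hf : ∀ k ∈ T, ∀ l ∈ T, k ∉ σ → l ∉ σ → k ≠ l → f k l = c) :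
    ∑ k ∈ T, ∑ l ∈ T, (if k ≠ l ∧ (T.erase k).erase l = σ then f k l else 0) = 2 * c := by
  have h2 : #(T \ σ) = 2 := by
    rw [card_sdiff_of_subset hσ]; omega
  obtain ⟨a, b, hab, hT⟩ := card_eq_two.1 h2
  have ha : a ∈ T ∧ a ∉ σ := by
    have : a ∈ T \ σ := by rw [hT]; simp
    simpa using this
  have hb : b ∈ T ∧ b ∉ σ := by
    have : b ∈ T \ σ := by rw [hT]; simp
    simpa using this
  have key : ∀ u v, u ∈ T → v ∈ T → T \ σ = {u, v} → (T.erase u).erase v = σ := by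
    intro u v hu hv h
    have hu' : u ∉ σ := by
      have : u ∈ T \ σ := by rw [h]; simp
      exact (mem_sdiff.1 this).2
    have hv' : v ∉ σ := by
      have : v ∈ T \ σ := by rw [h]; simp
      exact (mem_sdiff.1 this).2
    ext w
    simp only [mem_erase]
    constructor
    · rintro ⟨h1, h2, h3⟩
      by_contra h4
      have : w ∈ T \ σ := mem_sdiff.2 ⟨h3, h4⟩
      rw [h] at this
      simp only [mem_insert, mem_singleton] at this
      tauto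
    · intro h1
      exact ⟨fun e => hv' (e ▸ h1), fun e => hu' (e ▸ h1), hσ h1⟩
  have hset : (T ×ˢ T).filter (fun p => p.1 ≠ p.2 ∧ (T.erase p.1).erase p.2 = σ) =
      {(a, b), (b, a)} := by
    ext ⟨k, l⟩
    simp only [mem_filter, mem_product, mem_insert, mem_singleton, Prod.mk.injEq]
    constructor
    · rintro ⟨⟨hk, hl⟩, hkl, h⟩
      have hk' : k ∈ T \ σ := by
        rw [mem_sdiff, ← h]; simp [hk]
      have hl' : l ∈ T \ σ := by
        rw [mem_sdiff, ← h]; simp [hl]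
      rw [hT] at hk' hl'
      simp only [mem_insert, mem_singleton] at hk' hl'
      rcases hk' with rfl | rfl <;> rcases hl' with rfl | rfl <;> simp_all
    · rintro (⟨rfl, rfl⟩ | ⟨rfl, rfl⟩)
      · exact ⟨⟨ha.1, hb.1⟩, hab, key _ _ ha.1 hb.1 hT⟩
      · exact ⟨⟨hb.1, ha.1⟩, hab.symm, key _ _ hb.1 ha.1 (by rw [hT, pair_comm])⟩
  rw [← sum_product' T T (fun k l => if k ≠ l ∧ (T.erase k).erase l = σ then f k l else 0),
    ← sum_filter, hset, sum_pair (by simp [hab])]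
  rw [hf _ ha.1 _ hb.1 ha.2 hb.2 hab, hf _ hb.1 _ ha.1 hb.2 ha.2 hab.symm]
  ring

/-- the cone over `ρ` from the new vertex of `T` -/
def g (T ρ : Finset V) : Finset (V ⊕ Finset V) :=
  insert (Sum.inr T) (ρ.map ⟨Sum.inl, Sum.inl_injective⟩)

theorem mem_g_inl {T ρ : Finset V} {x : V} : Sum.inl x ∈ g T ρ ↔ x ∈ ρ := by simp [g]

theorem mem_g_inr {T ρ T1 : Finset V} : Sum.inr T1 ∈ g T ρ ↔ T1 = T := by simp [g]

theorem g_sub {T ρ τ : Finset V} : g T ρ ⊆ g T τ ↔ ρ ⊆ τ := by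
  constructor
  · intro h x hx
    exact mem_g_inl.1 (h (mem_g_inl.2 hx))
  · intro h x hx
    rcases x with x | x
    · exact mem_g_inl.2 (h (mem_g_inl.1 hx))
    · exact mem_g_inr.2 (mem_g_inr.1 hx)

theorem g_inj (T : Finset V) : Function.Injective (g T) := by
  intro ρ τ h
  exact subset_antisymm (g_sub.1 h.subset) (g_sub.1 h.symm.subset)

theorem card_g (T ρ : Finset V) : #(g T ρ) = #ρ + 1 := by
  unfold g
  rw [card_insert_of_notMem (by simp), card_map]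

theorem mem_cone {K : Finset (Finset V)} {T' : Finset (V ⊕ Finset V)} :
    T' ∈ cone K ↔ ∃ T ∈ K, ∃ v ∈ T, g T (T.erase v) = T' := by
  simp [cone, g]

theorem eq_g {T τ : Finset V} {σ : Finset (V ⊕ Finset V)} (h1 : Sum.inr T ∈ σ) (h2 : σ ⊆ g T τ) :
    σ = g T (τ.filter (Sum.inl · ∈ σ)) := by
  ext x
  rcases x with x | x
  · rw [mem_g_inl, mem_filter]
    exact ⟨fun h => ⟨mem_g_inl.1 (h2 h), h⟩, fun h => h.2⟩
  · rw [mem_g_inr]
    constructor
    · exact fun h => mem_g_inr.1 (h2 h)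
    · rintro rfl; exact h1

theorem faces_inr {K : Finset (Finset V)} {n : ℕ} (hK : Pure n K) {T : Finset V} (hT : T ∈ K)
    {x : V} (hn : 4 ≤ n) :
    (faces (cone K) (n - 1)).filter (fun σ => Sum.inr T ∈ σ ∧ Sum.inl x ∈ σ) =
      ((powersetCard (n - 2) T).filter (x ∈ ·)).image (g T) := by
  ext σ
  simp only [mem_filter, mem_image, faces, mem_biUnion, mem_powersetCard]
  constructor
  · rintro ⟨⟨T', hT', hs, hc⟩, h1, h2⟩
    obtain ⟨T1, hT1, v, hv, rfl⟩ := mem_cone.1 hT'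
    have : T = T1 := mem_g_inr.1 (hs h1)
    subst this
    have he := eq_g h1 hs
    refine ⟨_, ⟨⟨?_, ?_⟩, ?_⟩, he.symm⟩
    · exact (filter_subset _ _).trans (erase_subset _ _)
    · rw [he, card_g] at hc; omega
    · rw [he, mem_g_inl] at h2; exact h2
  · rintro ⟨ρ, ⟨⟨hρ, hc⟩, hx⟩, rfl⟩
    have hlt : #ρ < #T := by rw [hK T hT]; omega
    obtain ⟨v, hv, hv'⟩ := exists_mem_notMem_of_card_lt_card hlt
    refine ⟨⟨g T (T.erase v), mem_cone.2 ⟨T, hT, v, hv, rfl⟩, ?_, ?_⟩, ?_, ?_⟩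
    · rw [g_sub]; intro y hy
      exact mem_erase.2 ⟨fun e => hv' (e ▸ hy), hρ hy⟩
    · rw [card_g]; omega
    · exact mem_g_inr.2 rfl
    · exact mem_g_inl.2 hx

theorem card_star {T : Finset V} {x : V} (hx : x ∈ T) {n : ℕ} (hT : #T = n + 1) (hn : 4 ≤ n) :
    #((powersetCard (n - 2) T).filter (x ∈ ·)) = n.choose 3 := by
  have h1 : (powersetCard (n - 2) T).filter (x ∈ ·) =
      (powersetCard (n - 3) (T.erase x)).image (insert x) := by
    ext ρ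
    simp only [mem_filter, mem_image, mem_powersetCard]
    constructor
    · rintro ⟨⟨h1, h2⟩, h3⟩
      refine ⟨ρ.erase x, ⟨erase_subset_erase _ h1, ?_⟩, insert_erase h3⟩
      rw [card_erase_of_mem h3]; omega
    · rintro ⟨τ, ⟨h1, h2⟩, rfl⟩
      have hxτ : x ∉ τ := fun h => by simpa using h1 h
      refine ⟨⟨?_, ?_⟩, mem_insert_self _ _⟩
      · exact insert_subset hx (h1.trans (erase_subset _ _))
      · rw [card_insert_of_notMem hxτ]; omega
  rw [h1, card_image_of_injOn, card_powersetCard, card_erase_of_mem hx, hT]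
  · simp only [Nat.add_sub_cancel]
    exact Nat.choose_symm_of_eq_add (by omega)
  · intro a ha b hb hab
    have hxa : x ∉ a := fun h => by simpa using (mem_powersetCard.1 ha).1 h
    have hxb : x ∉ b := fun h => by simpa using (mem_powersetCard.1 hb).1 h
    have := congrArg (fun s => s.erase x) hab
    simpa [erase_insert hxa, erase_insert hxb] using this

theorem filter_cone {K : Finset (Finset V)} {T : Finset V} (hT : T ∈ K) {ρ : Finset V}
    (hρ : ρ ⊆ T) :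
    (cone K).filter (g T ρ ⊆ ·) = (T \ ρ).image (fun v => g T (T.erase v)) := by
  ext T'
  simp only [mem_filter, mem_image, mem_sdiff]
  constructor
  · rintro ⟨h1, h2⟩
    obtain ⟨T1, hT1, v, hv, rfl⟩ := mem_cone.1 h1
    have : T = T1 := mem_g_inr.1 (h2 (mem_g_inr.2 rfl))
    subst this
    refine ⟨v, ⟨hv, fun h => ?_⟩, rfl⟩
    have := (g_sub.1 h2) h
    simp at this
  · rintro ⟨v, ⟨hv, hv'⟩, rfl⟩
    refine ⟨mem_cone.2 ⟨T, hT, v, hv, rfl⟩, ?_⟩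
    rw [g_sub]; intro y hy
    exact mem_erase.2 ⟨fun e => hv' (e ▸ hy), hρ hy⟩

theorem pyr {z : Sym2 (V ⊕ Finset V) → ℝ} {t : ℝ}
    (h1 : ∀ x y : V, x ≠ y → z s(Sum.inl x, Sum.inl y) = 1)
    (h2 : ∀ (T : Finset V) (x : V), z s(Sum.inr T, Sum.inl x) = t) (T τ : Finset V) {m : ℕ}
    (hτ : #τ = m) (hm1 : 1 ≤ m) (ht : 0 < 1 / 2 + m * (t - 1 / 2)) :
    |(CM z (g T τ)).det| = 1 + 2 * m * (t - 1 / 2) ∧
    (∀ x ∈ τ, Q z (g T τ) (Sum.inr T) (Sum.inl x) = 1 / (2 * (1 / 2 + m * (t - 1 / 2)))) ∧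
    (∀ x ∈ τ, Q z (g T τ) (Sum.inl x) (Sum.inl x) =
      - (1 / 2 + (m - 1) * (t - 1 / 2)) / (1 / 2 + m * (t - 1 / 2))) ∧
    (∀ x ∈ τ, ∀ y ∈ τ, x ≠ y →
      Q z (g T τ) (Sum.inl x) (Sum.inl y) = (t - 1 / 2) / (1 / 2 + m * (t - 1 / 2))) := by
  obtain ⟨a1, -, a3, a4, a5⟩ := pyramid (z := z) (s := g T τ) (a := Sum.inr T)
    (mem_g_inr.2 rfl) (m := m) (by rw [card_g, hτ]) hm1 ht
    (by
      rintro (x | x) hx (y | y) hy hxa hya hxy
      · exact h1 _ _ (fun e => hxy (by rw [e]))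
      · exact absurd (by rw [mem_g_inr.1 hy]) hya
      · exact absurd (by rw [mem_g_inr.1 hx]) hxa
      · exact absurd (by rw [mem_g_inr.1 hx]) hxa)
    (by
      rintro (x | x) hx hxa
      · exact h2 _ _
      · exact absurd (by rw [mem_g_inr.1 hx]) hxa)
  refine ⟨a1, fun x hx => a3 _ (mem_g_inl.2 hx) (by simp), fun x hx => a4 _ (mem_g_inl.2 hx) (by simp),
    fun x hx y hy hxy => a5 _ (mem_g_inl.2 hx) _ (mem_g_inl.2 hy) (by simp) (by simp)
      (fun e => hxy (Sum.inl_injective e))⟩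

theorem ang_lat {n : ℕ} (hn : 4 ≤ n) {z : Sym2 (V ⊕ Finset V) → ℝ} {t : ℝ}
    (h1 : ∀ x y : V, x ≠ y → z s(Sum.inl x, Sum.inl y) = 1)
    (h2 : ∀ (T : Finset V) (x : V), z s(Sum.inr T, Sum.inl x) = t)
    (ht : 0 < 1 / 2 + n * (t - 1 / 2)) (ht1 : t < 1 / 2) (T τ : Finset V) (hτ : #τ = n)
    {k l : V} (hk : k ∈ τ) (hl : l ∈ τ) (hkl : k ≠ l) :
    ang z (g T τ) (Sum.inl k) (Sum.inl l) = thl n t := by
  obtain ⟨-, -, a4, a5⟩ := pyr h1 h2 T τ hτ (by omega) ht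
  unfold ang thl
  rw [a4 k hk, a4 l hl, a5 k hk l hl hkl]
  have hA : 0 < 1 / 2 + ((n : ℝ) - 1) * (t - 1 / 2) := by nlinarith
  have hsq : √(-(1 / 2 + ((n : ℝ) - 1) * (t - 1 / 2)) / (1 / 2 + n * (t - 1 / 2)) *
      (-(1 / 2 + ((n : ℝ) - 1) * (t - 1 / 2)) / (1 / 2 + n * (t - 1 / 2)))) =
      (1 / 2 + ((n : ℝ) - 1) * (t - 1 / 2)) / (1 / 2 + n * (t - 1 / 2)) := by
    rw [show -(1 / 2 + ((n : ℝ) - 1) * (t - 1 / 2)) / (1 / 2 + n * (t - 1 / 2)) *
      (-(1 / 2 + ((n : ℝ) - 1) * (t - 1 / 2)) / (1 / 2 + n * (t - 1 / 2))) =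
      ((1 / 2 + ((n : ℝ) - 1) * (t - 1 / 2)) / (1 / 2 + n * (t - 1 / 2))) ^ 2 by ring]
    exact sqrt_sq (by positivity)
  rw [hsq, div_div_div_cancel_right₀ ht.ne']

theorem curv_new {n : ℕ} (hn : 4 ≤ n) {K : Finset (Finset V)} (hK : Pure n K)
    {T : Finset V} (hT : T ∈ K) {ρ : Finset V} (hρ : ρ ⊆ T) (hc : #ρ = n - 2)
    {t : ℝ} (ht : 0 < 1 / 2 + n * (t - 1 / 2)) (ht1 : t < 1 / 2) {z : Sym2 (V ⊕ Finset V) → ℝ}
    (h1 : ∀ x y : V, x ≠ y → z s(Sum.inl x, Sum.inl y) = 1)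
    (h2 : ∀ (T : Finset V) (x : V), z s(Sum.inr T, Sum.inl x) = t) :
    curv (cone K) z (g T ρ) = 1 - 3 * thl n t / (2 * π) := by
  unfold curv
  congr 1
  have hTn := hK T hT
  have hz : ∑ T' ∈ cone K, ∑ k ∈ T', ∑ l ∈ T',
      (if k ≠ l ∧ (T'.erase k).erase l = g T ρ then ang z T' k l / (4 * π) else 0) =
      ∑ T' ∈ (cone K).filter (g T ρ ⊆ ·), ∑ k ∈ T', ∑ l ∈ T',
      (if k ≠ l ∧ (T'.erase k).erase l = g T ρ then ang z T' k l / (4 * π) else 0) := by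
    symm
    apply sum_subset (filter_subset _ _)
    intro T' hT' hn'
    apply sum_eq_zero; intro k hk
    apply sum_eq_zero; intro l hl
    rw [if_neg]
    rintro ⟨-, h⟩
    apply hn'
    rw [mem_filter]
    refine ⟨hT', ?_⟩
    rw [← h]
    exact (erase_subset _ _).trans (erase_subset _ _)
  rw [hz, filter_cone hT hρ, sum_image]
  · rw [sum_congr rfl (g := fun _ => 2 * (thl n t / (4 * π)))]
    · rw [sum_const, card_sdiff_of_subset hρ, hTn, hc]
      have : n + 1 - (n - 2) = 3 := by omega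
      rw [this]
      have := pi_ne_zero
      simp only [nsmul_eq_mul]
      field_simp
      push_cast
      ring
    · intro v hv
      rw [mem_sdiff] at hv
      apply pair_sum
      · rw [g_sub]; intro y hy
        exact mem_erase.2 ⟨fun e => hv.2 (e ▸ hy), hρ hy⟩
      · rw [card_g, card_g, card_erase_of_mem hv.1, hTn, hc]; omega
      · rintro (k | k) hk (l | l) hl hk' hl' hkl
        · rw [ang_lat hn h1 h2 ht ht1 T _ (by rw [card_erase_of_mem hv.1, hTn]; omega)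
            (mem_g_inl.1 hk) (mem_g_inl.1 hl) (fun e => hkl (by rw [e]))]
        · exact absurd (mem_g_inr.2 (mem_g_inr.1 hl)) hl'
        · exact absurd (mem_g_inr.2 (mem_g_inr.1 hk)) hk'
        · exact absurd (mem_g_inr.2 (mem_g_inr.1 hk)) hk'
  · intro v hv w hw hvw
    have hv' : v ∈ T := (mem_sdiff.1 hv).1
    have hw' : w ∈ T := (mem_sdiff.1 hw).1
    have h : T.erase v = T.erase w := g_inj T hvw
    by_contra hne
    have : v ∈ T.erase w := mem_erase.2 ⟨hne, hv'⟩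
    rw [← h] at this
    simp at this

theorem vol_new {n : ℕ} (hn : 4 ≤ n) {z : Sym2 (V ⊕ Finset V) → ℝ} {t : ℝ}
    (h1 : ∀ x y : V, x ≠ y → z s(Sum.inl x, Sum.inl y) = 1)
    (h2 : ∀ (T : Finset V) (x : V), z s(Sum.inr T, Sum.inl x) = t)
    (ht : 0 < 1 / 2 + n * (t - 1 / 2)) (ht1 : t < 1 / 2) (T ρ : Finset V) (hρ : #ρ = n - 2) :
    vol z (g T ρ) = kap n * √(1 + 2 * (n - 2) * (t - 1 / 2)) ∧
    ∀ x ∈ ρ, Q z (g T ρ) (Sum.inr T) (Sum.inl x) = 1 / (2 * (1 / 2 + (n - 2) * (t - 1 / 2))) := by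
  have hcast : ((n - 2 : ℕ) : ℝ) = n - 2 := by
    rw [Nat.cast_sub (by omega)]; norm_num
  obtain ⟨a1, a3, -, -⟩ := pyr h1 h2 T ρ hρ (by omega) (by rw [hcast]; nlinarith)
  rw [hcast] at a1 a3
  refine ⟨?_, a3⟩
  unfold vol kap
  rw [a1, card_g, hρ, ← sqrt_mul (by positivity)]
  congr 1
  have : n - 2 + 1 - 1 = n - 2 := by omega
  rw [this]
  ring

theorem ein_new {n : ℕ} (hn : 4 ≤ n) {K : Finset (Finset V)} (hK : Pure n K)
    {T : Finset V} (hT : T ∈ K) {x : V} (hx : x ∈ T)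
    {t : ℝ} (ht : 0 < 1 / 2 + n * (t - 1 / 2)) (ht1 : t < 1 / 2) {z : Sym2 (V ⊕ Finset V) → ℝ}
    (h1 : ∀ x y : V, x ≠ y → z s(Sum.inl x, Sum.inl y) = 1)
    (h2 : ∀ (T : Finset V) (x : V), z s(Sum.inr T, Sum.inl x) = t) :
    ein n (cone K) z (Sum.inr T) (Sum.inl x) = kap n * fb n t := by
  unfold ein
  rw [faces_inr hK hT hn, sum_image (fun a _ b _ h => g_inj T h),
    sum_congr rfl (g := fun _ => (1 - 3 * thl n t / (2 * π)) *
      (kap n * √(1 + 2 * (n - 2) * (t - 1 / 2)) * (1 / (2 * (1 / 2 + (n - 2) * (t - 1 / 2))))))]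
  · rw [sum_const, card_star hx (hK T hT) hn, nsmul_eq_mul]
    unfold fb
    ring
  · intro ρ hρ
    rw [mem_filter, mem_powersetCard] at hρ
    obtain ⟨⟨hρ1, hρ2⟩, hxρ⟩ := hρ
    obtain ⟨b1, b2⟩ := vol_new hn h1 h2 ht ht1 T ρ hρ2
    rw [curv_new hn hK hT hρ1 hρ2 ht ht1 h1 h2, b1, b2 x hxρ]

end Pool.Agent.H50En.Cn
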