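import Pool.Agent.H50En.Defs

/-! The two angles of the pyramid and the Einstein vector of the coned complex. -/

namespace Pool.Agent.H50En

open Real Finset

/-- The two angles of the pyramid. -/
noncomputable def thb (n : ℕ) (t : ℝ) : ℝ := arccos (1 / √(n * (1 + 2 * (n - 1) * (t - 1 / 2))))
noncomputable def thl (n : ℕ) (t : ℝ) : ℝ := arccos ((t - 1 / 2) / (1 / 2 + (n - 1) * (t - 1 / 2)))

/-- The Einstein vector on old edges, up to the factor `kap`. -/
noncomputable def fa (n s d : ℕ) (t : ℝ) : ℝ :=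
  (s - (n - 1).choose 2 * d * thb n t / π) * √(n - 1 : ℝ) / (n - 1) +
    d * (n - 1).choose 3 * (1 - 3 * thl n t / (2 * π)) * √(1 + 2 * (n - 2) * (t - 1 / 2)) *
      ((t - 1 / 2) / (1 / 2 + (n - 2) * (t - 1 / 2)))
/-- The Einstein vector on new edges, up to the factor `kap`. -/
noncomputable def fb (n : ℕ) (t : ℝ) : ℝ :=
  n.choose 3 * (1 - 3 * thl n t / (2 * π)) * √(1 + 2 * (n - 2) * (t - 1 / 2)) *
      (1 / (2 * (1 / 2 + (n - 2) * (t - 1 / 2))))

/-- The common factor. -/
noncomputable def kap (n : ℕ) : ℝ := √(1 / (2 ^ (n - 2) * ((n - 2).factorial : ℝ) ^ 2))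

end Pool.Agent.H50En
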