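import Pool.Agent.H50En.New

/-! The Einstein vector of the coned complex at an old edge. -/

namespace Pool.Agent.H50En.Cn

open Real Finset Pool.Agent.H50En Pool.Agent.H50En.Pyr Pool.Agent.H50En.Der

variable {V : Type} [DecidableEq V]

theorem Q_sy {W : Type} [DecidableEq W] (z : Sym2 W → ℝ) (s : Finset W) (k l : W) :
    Q z s k l = Q z s l k := by
  have hT : (CM z s).transpose = CM z s := by
    ext a b
    rcases a with _ | a <;> rcases b with _ | b
    · rfl
    · rfl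
    · rfl
    · simp only [Matrix.transpose_apply, CM, Matrix.of_apply]
      by_cases h : a = b
      · subst h; rfl
      · rw [if_neg h, if_neg (Ne.symm h), Sym2.eq_swap]
  have hI : ∀ a b, (CM z s)⁻¹ a b = (CM z s)⁻¹ b a := by
    intro a b
    conv_lhs => rw [← hT, ← Matrix.transpose_nonsing_inv]
    rfl
  unfold Q
  by_cases h : k ∈ s ∧ l ∈ s
  · rw [dif_pos h, dif_pos h.symm, hI]
  · rw [dif_neg h, dif_neg (fun h' => h h'.symm)]

theorem ang_sy {W : Type} [DecidableEq W] (z : Sym2 W → ℝ) (s : Finset W) (k l : W) :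
    ang z s k l = ang z s l k := by
  unfold ang
  rw [Q_sy z s k l, mul_comm (Q z s k k)]

theorem card_star2 {T : Finset V} {x y : V} (hxy : x ≠ y) (hxT : {x, y} ⊆ T) {n j : ℕ}
    (hT : #T = n + 1) :
    #((powersetCard (j + 2) T).filter ({x, y} ⊆ ·)) = (n - 1).choose j := by
  have hx : x ∈ T := hxT (by simp)
  have hy : y ∈ T := hxT (by simp)
  have h1 : (powersetCard (j + 2) T).filter ({x, y} ⊆ ·) =
      (powersetCard j ((T.erase x).erase y)).image (fun ρ => insert x (insert y ρ)) := by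
    ext ρ
    simp only [mem_filter, mem_image, mem_powersetCard]
    constructor
    · rintro ⟨⟨h1, h2⟩, h3⟩
      have hxρ : x ∈ ρ := h3 (by simp)
      have hyρ : y ∈ ρ.erase x := mem_erase.2 ⟨hxy.symm, h3 (by simp)⟩
      refine ⟨(ρ.erase x).erase y, ⟨erase_subset_erase _ (erase_subset_erase _ h1), ?_⟩, ?_⟩
      · rw [card_erase_of_mem hyρ, card_erase_of_mem hxρ]; omega
      · rw [insert_erase hyρ, insert_erase hxρ]
    · rintro ⟨τ, ⟨h1, h2⟩, rfl⟩
      have hyτ : y ∉ τ := fun h => by simpa using h1 h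
      have hxτ : x ∉ insert y τ := by
        rw [mem_insert, not_or]
        exact ⟨hxy, fun h => by simpa using h1 h⟩
      refine ⟨⟨?_, ?_⟩, ?_⟩
      · exact insert_subset hx (insert_subset hy
          (h1.trans ((erase_subset _ _).trans (erase_subset _ _))))
      · rw [card_insert_of_notMem hxτ, card_insert_of_notMem hyτ]; omega
      · intro w hw
        simp only [mem_insert, mem_singleton] at hw
        rcases hw with rfl | rfl <;> simp
  have hc : #((T.erase x).erase y) = n - 1 := by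
    rw [card_erase_of_mem (mem_erase.2 ⟨hxy.symm, hy⟩), card_erase_of_mem hx]; omega
  rw [h1, card_image_of_injOn, card_powersetCard, hc]
  intro a ha b hb hab
  have hne : ∀ c ∈ (powersetCard j ((T.erase x).erase y) : Finset (Finset V)),
      ((insert x (insert y c)).erase x).erase y = c := by
    intro c hc
    have hyτ : y ∉ c := fun h => by simpa using (mem_powersetCard.1 hc).1 h
    have hxτ : x ∉ insert y c := by
      rw [mem_insert, not_or]
      exact ⟨hxy, fun h => by simpa using (mem_powersetCard.1 hc).1 h⟩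
    rw [erase_insert hxτ, erase_insert hyτ]
  have := congrArg (fun s => (s.erase x).erase y) hab
  simp only at this
  rwa [hne a ha, hne b hb] at this

/-- old faces in the cone -/
def o (ρ : Finset V) : Finset (V ⊕ Finset V) := ρ.map ⟨Sum.inl, Sum.inl_injective⟩

theorem mem_o_inl {ρ : Finset V} {x : V} : Sum.inl x ∈ o ρ ↔ x ∈ ρ := by simp [o]

theorem mem_o_inr {ρ T1 : Finset V} : Sum.inr T1 ∉ o ρ := by simp [o]

theorem card_o (ρ : Finset V) : #(o ρ) = #ρ := card_map _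

theorem o_inj : Function.Injective (o (V := V)) := map_injective _

theorem o_sub {T ρ τ : Finset V} : o ρ ⊆ g T τ ↔ ρ ⊆ τ := by
  constructor
  · intro h x hx
    exact mem_g_inl.1 (h (mem_o_inl.2 hx))
  · intro h x hx
    rcases x with x | x
    · exact mem_g_inl.2 (h (mem_o_inl.1 hx))
    · exact absurd hx mem_o_inr

theorem eq_o {T τ : Finset V} {σ : Finset (V ⊕ Finset V)} (h1 : Sum.inr T ∉ σ) (h2 : σ ⊆ g T τ) :
    σ = o (τ.filter (Sum.inl · ∈ σ)) := by
  ext x
  rcases x with x | x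
  · rw [mem_o_inl, mem_filter]
    exact ⟨fun h => ⟨mem_g_inl.1 (h2 h), h⟩, fun h => h.2⟩
  · constructor
    · intro h
      have := mem_g_inr.1 (h2 h)
      subst this
      exact absurd h h1
    · intro h; exact absurd h mem_o_inr

theorem faces_inl {K : Finset (Finset V)} {n : ℕ} (hK : Pure n K) (hn : 4 ≤ n) (x y : V) :
    (faces (cone K) (n - 1)).filter (fun σ => Sum.inl x ∈ σ ∧ Sum.inl y ∈ σ) =
      ((faces K (n - 1)).filter ({x, y} ⊆ ·)).image o ∪
      (K.filter ({x, y} ⊆ ·)).biUnion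
        (fun T => ((powersetCard (n - 2) T).filter ({x, y} ⊆ ·)).image (g T)) := by
  have hpair : ∀ ρ : Finset V, {x, y} ⊆ ρ ↔ x ∈ ρ ∧ y ∈ ρ := by
    intro ρ
    rw [insert_subset_iff, singleton_subset_iff]
  have hv : ∀ T ∈ K, ∀ ρ ⊆ T, #ρ < n + 1 → ∃ v ∈ T, ρ ⊆ T.erase v := by
    intro T hT ρ hρ hc
    obtain ⟨v, hv, hv'⟩ := exists_mem_notMem_of_card_lt_card (s := ρ) (t := T) (by rw [hK T hT]; exact hc)
    exact ⟨v, hv, fun y hy => mem_erase.2 ⟨fun e => hv' (e ▸ hy), hρ hy⟩⟩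
  ext σ
  simp only [mem_union, mem_filter, mem_image, faces, mem_biUnion, mem_powersetCard, hpair]
  constructor
  · rintro ⟨⟨T', hT', hs, hc⟩, h1, h2⟩
    obtain ⟨T, hT, v, hv, rfl⟩ := mem_cone.1 hT'
    by_cases h : Sum.inr T ∈ σ
    · right
      have he := eq_g h hs
      have hsub : (T.erase v).filter (Sum.inl · ∈ σ) ⊆ T := (filter_subset _ _).trans (erase_subset _ _)
      rw [he, mem_g_inl] at h1 h2
      refine ⟨T, ⟨hT, hsub h1, hsub h2⟩, _, ⟨⟨hsub, ?_⟩, h1, h2⟩, he.symm⟩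
      rw [he, card_g] at hc; omega
    · left
      have he := eq_o h hs
      have hsub : (T.erase v).filter (Sum.inl · ∈ σ) ⊆ T := (filter_subset _ _).trans (erase_subset _ _)
      rw [he, mem_o_inl] at h1 h2
      refine ⟨_, ⟨⟨T, hT, hsub, ?_⟩, h1, h2⟩, he.symm⟩
      rw [he, card_o] at hc; omega
  · rintro (⟨ρ, ⟨⟨T, hT, hρ, hc⟩, hx, hy⟩, rfl⟩ | ⟨T, ⟨hT, hx', hy'⟩, ρ, ⟨⟨hρ, hc⟩, hx, hy⟩, rfl⟩)
    · obtain ⟨v, hv, hv'⟩ := hv T hT ρ hρ (by omega)
      exact ⟨⟨g T (T.erase v), mem_cone.2 ⟨T, hT, v, hv, rfl⟩, o_sub.2 hv', by rw [card_o, hc]⟩,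
        mem_o_inl.2 hx, mem_o_inl.2 hy⟩
    · obtain ⟨v, hv, hv'⟩ := hv T hT ρ hρ (by omega)
      exact ⟨⟨g T (T.erase v), mem_cone.2 ⟨T, hT, v, hv, rfl⟩, g_sub.2 hv', by rw [card_g, hc]; omega⟩,
        mem_g_inl.2 hx, mem_g_inl.2 hy⟩

theorem filter_cone_o {K : Finset (Finset V)} (ρ : Finset V) :
    (cone K).filter (o ρ ⊆ ·) = (K.filter (ρ ⊆ ·)).biUnion
      (fun T => (T \ ρ).image (fun v => g T (T.erase v))) := by
  ext T'
  simp only [mem_filter, mem_image, mem_sdiff, mem_biUnion]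
  constructor
  · rintro ⟨h1, h2⟩
    obtain ⟨T, hT, v, hv, rfl⟩ := mem_cone.1 h1
    rw [o_sub] at h2
    exact ⟨T, ⟨hT, h2.trans (erase_subset _ _)⟩, v, ⟨hv, fun h => by simpa using h2 h⟩, rfl⟩
  · rintro ⟨T, ⟨hT, hρ⟩, v, ⟨hv, hv'⟩, rfl⟩
    refine ⟨mem_cone.2 ⟨T, hT, v, hv, rfl⟩, ?_⟩
    rw [o_sub]; intro y hy
    exact mem_erase.2 ⟨fun e => hv' (e ▸ hy), hρ hy⟩

theorem ang_base {n : ℕ} (hn : 4 ≤ n) {z : Sym2 (V ⊕ Finset V) → ℝ} {t : ℝ}
    (h1 : ∀ x y : V, x ≠ y → z s(Sum.inl x, Sum.inl y) = 1)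
    (h2 : ∀ (T : Finset V) (x : V), z s(Sum.inr T, Sum.inl x) = t)
    (ht : 0 < 1 / 2 + n * (t - 1 / 2)) (ht1 : t < 1 / 2) (T τ : Finset V) (hτ : #τ = n)
    {k : V} (hk : k ∈ τ) :
    ang z (g T τ) (Sum.inr T) (Sum.inl k) = thb n t := by
  obtain ⟨-, a2, a3, a4, -⟩ := pyramid (z := z) (s := g T τ) (a := Sum.inr T)
    (mem_g_inr.2 rfl) (m := n) (by rw [card_g, hτ]) (by omega) ht
    (by
      rintro (x | x) hx (y | y) hy hxa hya hxy
      · exact h1 _ _ (fun e => hxy (by rw [e]))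
      · exact absurd (by rw [mem_g_inr.1 hy]) hya
      · exact absurd (by rw [mem_g_inr.1 hx]) hxa
      · exact absurd (by rw [mem_g_inr.1 hx]) hxa)
    (by
      rintro (x | x) hx hxa
      · exact h2 _ _
      · exact absurd (by rw [mem_g_inr.1 hx]) hxa)
  unfold ang thb
  rw [a2, a3 _ (mem_g_inl.2 hk) (by simp), a4 _ (mem_g_inl.2 hk) (by simp)]
  have hn' : (4 : ℝ) ≤ n := by exact_mod_cast hn
  have hA : 0 < 1 / 2 + ((n : ℝ) - 1) * (t - 1 / 2) := by nlinarith
  set A := 1 / 2 + ((n : ℝ) - 1) * (t - 1 / 2) with hAdef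
  set E := 1 / 2 + (n : ℝ) * (t - 1 / 2) with hEdef
  have hB : (n : ℝ) * (1 + 2 * (n - 1) * (t - 1 / 2)) = 2 * n * A := by rw [hAdef]; ring
  rw [hB]
  have hsq : √(-(n : ℝ) / (2 * E) * (-A / E)) = √(2 * n * A) / (2 * E) := by
    rw [show -(n : ℝ) / (2 * E) * (-A / E) = (2 * n * A) / (2 * E) ^ 2 by field_simp,
      sqrt_div (by positivity), sqrt_sq (by positivity)]
  rw [hsq]
  congr 1
  rw [div_div_div_cancel_right₀ (by positivity)]

theorem curv_old {n : ℕ} (hn : 4 ≤ n) {K : Finset (Finset V)} (hK : Pure n K)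
    {ρ : Finset V} (hc : #ρ = n - 1)
    {t : ℝ} (ht : 0 < 1 / 2 + n * (t - 1 / 2)) (ht1 : t < 1 / 2) {z : Sym2 (V ⊕ Finset V) → ℝ}
    (h1 : ∀ x y : V, x ≠ y → z s(Sum.inl x, Sum.inl y) = 1)
    (h2 : ∀ (T : Finset V) (x : V), z s(Sum.inr T, Sum.inl x) = t) :
    curv (cone K) z (o ρ) = 1 - #(K.filter (ρ ⊆ ·)) * thb n t / π := by
  unfold curv
  congr 1
  have hz : ∑ T' ∈ cone K, ∑ k ∈ T', ∑ l ∈ T',
      (if k ≠ l ∧ (T'.erase k).erase l = o ρ then ang z T' k l / (4 * π) else 0) =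
      ∑ T' ∈ (cone K).filter (o ρ ⊆ ·), ∑ k ∈ T', ∑ l ∈ T',
      (if k ≠ l ∧ (T'.erase k).erase l = o ρ then ang z T' k l / (4 * π) else 0) := by
    symm
    apply sum_subset (filter_subset _ _)
    intro T' hT' hn'
    apply sum_eq_zero; intro k hk
    apply sum_eq_zero; intro l hl
    rw [if_neg]
    rintro ⟨-, h⟩
    apply hn'
    rw [mem_filter]
    refine ⟨hT', ?_⟩
    rw [← h]
    exact (erase_subset _ _).trans (erase_subset _ _)
  rw [hz, filter_cone_o, sum_biUnion]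
  · rw [sum_congr rfl (g := fun _ => 2 * (2 * (thb n t / (4 * π))))]
    · rw [sum_const]
      have := pi_ne_zero
      simp only [nsmul_eq_mul]
      field_simp
      ring
    · intro T hT
      rw [mem_filter] at hT
      obtain ⟨hT, hρ⟩ := hT
      have hTn := hK T hT
      rw [sum_image]
      · rw [sum_congr rfl (g := fun _ => 2 * (thb n t / (4 * π)))]
        · rw [sum_const, card_sdiff_of_subset hρ, hTn, hc]
          have : n + 1 - (n - 1) = 2 := by omega
          rw [this, nsmul_eq_mul]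
          norm_num
        · intro v hv
          rw [mem_sdiff] at hv
          have hce : #(T.erase v) = n := by rw [card_erase_of_mem hv.1, hTn]; omega
          have hρv : ρ ⊆ T.erase v := fun y hy => mem_erase.2 ⟨fun e => hv.2 (e ▸ hy), hρ hy⟩
          have hc1 : #(T.erase v \ ρ) = 1 := by rw [card_sdiff_of_subset hρv, hce, hc]; omega
          apply pair_sum
          · exact o_sub.2 hρv
          · rw [card_g, card_o, hce, hc]; omega
          · rintro (k | k) hk (l | l) hl hk' hl' hkl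
            · exfalso
              have hk2 : k ∈ T.erase v \ ρ := mem_sdiff.2 ⟨mem_g_inl.1 hk, fun h => hk' (mem_o_inl.2 h)⟩
              have hl2 : l ∈ T.erase v \ ρ := mem_sdiff.2 ⟨mem_g_inl.1 hl, fun h => hl' (mem_o_inl.2 h)⟩
              exact hkl (by rw [card_le_one.1 hc1.le k hk2 l hl2])
            · have := mem_g_inr.1 hl
              subst this
              rw [ang_sy, ang_base hn h1 h2 ht ht1 _ _ hce (mem_g_inl.1 hk)]
            · have := mem_g_inr.1 hk
              subst this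
              rw [ang_base hn h1 h2 ht ht1 _ _ hce (mem_g_inl.1 hl)]
            · exact absurd (by rw [mem_g_inr.1 hk, mem_g_inr.1 hl]) hkl
      · intro v hv w hw hvw
        have hv' : v ∈ T := (mem_sdiff.1 hv).1
        have hw' : w ∈ T := (mem_sdiff.1 hw).1
        have h : T.erase v = T.erase w := g_inj T hvw
        by_contra hne
        have : v ∈ T.erase w := mem_erase.2 ⟨hne, hv'⟩
        rw [← h] at this
        simp at this
  · intro T hT T1 hT1 hne
    rw [Function.onFun, disjoint_left]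
    intro σ hσ hσ1
    rw [mem_image] at hσ hσ1
    obtain ⟨v, -, rfl⟩ := hσ
    obtain ⟨w, -, h⟩ := hσ1
    have : Sum.inr T1 ∈ g T (T.erase v) := by rw [← h]; exact mem_g_inr.2 rfl
    exact hne (mem_g_inr.1 this).symm

theorem vol_old {n : ℕ} (hn : 4 ≤ n) {z : Sym2 (V ⊕ Finset V) → ℝ}
    (h1 : ∀ x y : V, x ≠ y → z s(Sum.inl x, Sum.inl y) = 1) (ρ : Finset V) (hρ : #ρ = n - 1)
    {x y : V} (hxy : x ≠ y) (hx : x ∈ ρ) (hy : y ∈ ρ) :
    vol z (o ρ) = kap n * √((n : ℝ) - 1) ∧ Q z (o ρ) (Sum.inl x) (Sum.inl y) = 1 / ((n : ℝ) - 1) := by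
  have hcast : ((n - 2 : ℕ) : ℝ) = n - 2 := by
    rw [Nat.cast_sub (by omega)]; norm_num
  have hn' : (4 : ℝ) ≤ n := by exact_mod_cast hn
  obtain ⟨a1, -, a3, -, -⟩ := pyramid (z := z) (s := o ρ) (a := Sum.inl x)
    (mem_o_inl.2 hx) (m := n - 2) (by rw [card_o, hρ]; omega) (by omega) (t := 1)
    (by rw [hcast]; linarith)
    (by
      rintro (x | x) hx (y | y) hy hxa hya hxy
      · exact h1 _ _ (fun e => hxy (by rw [e]))
      · exact absurd hy mem_o_inr
      · exact absurd hx mem_o_inr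
      · exact absurd hx mem_o_inr)
    (by
      rintro (w | w) hw hwa
      · exact h1 _ _ (fun e => hwa (by rw [e]))
      · exact absurd hw mem_o_inr)
  rw [hcast] at a1 a3
  constructor
  · unfold vol kap
    rw [a1, card_o, hρ, ← sqrt_mul (by positivity)]
    congr 1
    have : n - 1 - 1 = n - 2 := by omega
    rw [this]
    ring
  · rw [a3 _ (mem_o_inl.2 hy) (fun e => hxy (Sum.inl_injective e).symm)]
    congr 1
    ring

theorem double {n d : ℕ} (hn : 4 ≤ n) {K : Finset (Finset V)} (hK : Pure n K)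
    {x y : V} (hxy : x ≠ y) (hd : #(K.filter ({x, y} ⊆ ·)) = d) :
    ∑ ρ ∈ (faces K (n - 1)).filter ({x, y} ⊆ ·), #(K.filter (ρ ⊆ ·)) = d * (n - 1).choose 2 := by
  have h := sum_card_bipartiteAbove_eq_sum_card_bipartiteBelow
    (s := (faces K (n - 1)).filter ({x, y} ⊆ ·)) (t := K.filter ({x, y} ⊆ ·))
    (fun (ρ T : Finset V) => ρ ⊆ T)
  have e1 : ∀ ρ ∈ (faces K (n - 1)).filter ({x, y} ⊆ ·),
      #((K.filter ({x, y} ⊆ ·)).bipartiteAbove (fun (ρ T : Finset V) => ρ ⊆ T) ρ) =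
      #(K.filter (ρ ⊆ ·)) := by
    intro ρ hρ
    congr 1
    ext T
    simp only [bipartiteAbove, mem_filter]
    exact ⟨fun h => ⟨h.1.1, h.2⟩, fun h => ⟨⟨h.1, (mem_filter.1 hρ).2.trans h.2⟩, h.2⟩⟩
  have e2 : ∀ T ∈ K.filter ({x, y} ⊆ ·),
      #(((faces K (n - 1)).filter ({x, y} ⊆ ·)).bipartiteBelow (fun (ρ T : Finset V) => ρ ⊆ T) T) =
      (n - 1).choose 2 := by
    intro T hT
    rw [mem_filter] at hT
    have : ((faces K (n - 1)).filter ({x, y} ⊆ ·)).bipartiteBelow (fun (ρ T : Finset V) => ρ ⊆ T) T =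
        (powersetCard ((n - 3) + 2) T).filter ({x, y} ⊆ ·) := by
      ext ρ
      simp only [bipartiteBelow, mem_filter, faces, mem_biUnion, mem_powersetCard]
      constructor
      · rintro ⟨⟨⟨T1, hT1, h1, h2⟩, h3⟩, h4⟩
        exact ⟨⟨h4, by omega⟩, h3⟩
      · rintro ⟨⟨h4, h2⟩, h3⟩
        exact ⟨⟨⟨T, hT.1, h4, by omega⟩, h3⟩, h4⟩
    rw [this, card_star2 hxy hT.2 (hK T hT.1)]
    exact Nat.choose_symm_of_eq_add (by omega)
  rw [sum_congr rfl e1, sum_congr rfl e2, sum_const, hd, smul_eq_mul] at h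
  exact h

theorem ein_old {n s d : ℕ} (hn : 4 ≤ n) {K : Finset (Finset V)} (hK : Pure n K)
    {x y : V} (hxy : x ≠ y)
    (hs : #((faces K (n - 1)).filter ({x, y} ⊆ ·)) = s) (hd : #(K.filter ({x, y} ⊆ ·)) = d)
    {t : ℝ} (ht : 0 < 1 / 2 + n * (t - 1 / 2)) (ht1 : t < 1 / 2) {z : Sym2 (V ⊕ Finset V) → ℝ}
    (h1 : ∀ x y : V, x ≠ y → z s(Sum.inl x, Sum.inl y) = 1)
    (h2 : ∀ (T : Finset V) (x : V), z s(Sum.inr T, Sum.inl x) = t) :
    ein n (cone K) z (Sum.inl x) (Sum.inl y) = kap n * fa n s d t := by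
  have hcast : ((n - 2 : ℕ) : ℝ) = n - 2 := by
    rw [Nat.cast_sub (by omega)]; norm_num
  unfold ein
  rw [faces_inl hK hn x y, sum_union]
  · have hA : ∑ σ ∈ ((faces K (n - 1)).filter ({x, y} ⊆ ·)).image o,
        curv (cone K) z σ * (vol z σ * Q z σ (Sum.inl x) (Sum.inl y)) =
        kap n * ((s - (n - 1).choose 2 * d * thb n t / π) * √(n - 1 : ℝ) / (n - 1)) := by
      rw [sum_image (fun a _ b _ h => o_inj h),
        sum_congr rfl (g := fun ρ => (1 - #(K.filter (ρ ⊆ ·)) * thb n t / π) *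
          (kap n * √((n : ℝ) - 1) * (1 / ((n : ℝ) - 1))))]
      · rw [← sum_mul, sum_sub_distrib, sum_const, hs]
        have hdd := double hn hK hxy hd
        have hd' : ∑ ρ ∈ (faces K (n - 1)).filter ({x, y} ⊆ ·), (#(K.filter (ρ ⊆ ·)) : ℝ) =
            d * (n - 1).choose 2 := by
          exact_mod_cast hdd
        have : ∑ ρ ∈ (faces K (n - 1)).filter ({x, y} ⊆ ·), (#(K.filter (ρ ⊆ ·)) : ℝ) * thb n t / π =
            (d * (n - 1).choose 2) * thb n t / π := by
          rw [← hd', sum_mul, sum_div]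
        rw [this, nsmul_eq_mul]
        ring
      · intro ρ hρ
        rw [mem_filter] at hρ
        have hρc : #ρ = n - 1 := by
          obtain ⟨T, hT, h⟩ := mem_biUnion.1 hρ.1
          exact (mem_powersetCard.1 h).2
        obtain ⟨b1, b2⟩ := vol_old hn h1 ρ hρc hxy (hρ.2 (by simp)) (hρ.2 (by simp))
        rw [curv_old hn hK hρc ht ht1 h1 h2, b1, b2]
    have hB : ∑ σ ∈ (K.filter ({x, y} ⊆ ·)).biUnion
        (fun T => ((powersetCard (n - 2) T).filter ({x, y} ⊆ ·)).image (g T)),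
        curv (cone K) z σ * (vol z σ * Q z σ (Sum.inl x) (Sum.inl y)) =
        kap n * (d * (n - 1).choose 3 * (1 - 3 * thl n t / (2 * π)) *
          √(1 + 2 * (n - 2) * (t - 1 / 2)) * ((t - 1 / 2) / (1 / 2 + (n - 2) * (t - 1 / 2)))) := by
      rw [sum_biUnion]
      · rw [sum_congr rfl (g := fun _ => (n - 1).choose 3 * ((1 - 3 * thl n t / (2 * π)) *
          (kap n * √(1 + 2 * (n - 2) * (t - 1 / 2)) *
            ((t - 1 / 2) / (1 / 2 + (n - 2) * (t - 1 / 2))))))]
        · rw [sum_const, hd, nsmul_eq_mul]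
          ring
        · intro T hT
          rw [mem_filter] at hT
          rw [sum_image (fun a _ b _ h => g_inj T h),
            sum_congr rfl (g := fun _ => ((1 - 3 * thl n t / (2 * π)) *
              (kap n * √(1 + 2 * (n - 2) * (t - 1 / 2)) *
                ((t - 1 / 2) / (1 / 2 + (n - 2) * (t - 1 / 2))))))]
          · rw [sum_const]
            have hc := card_star2 (j := n - 4) hxy hT.2 (hK T hT.1)
            have e : n - 4 + 2 = n - 2 := by omega
            rw [e] at hc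
            rw [hc, nsmul_eq_mul]
            congr 2
            exact Nat.choose_symm_of_eq_add (by omega)
          · intro ρ hρ
            rw [mem_filter, mem_powersetCard] at hρ
            obtain ⟨⟨hρ1, hρ2⟩, hxρ⟩ := hρ
            obtain ⟨b1, -⟩ := vol_new hn h1 h2 ht ht1 T ρ hρ2
            obtain ⟨-, -, -, a5⟩ := pyr h1 h2 T ρ hρ2 (by omega) (by rw [hcast]; nlinarith)
            rw [hcast] at a5
            rw [curv_new hn hK hT.1 hρ1 hρ2 ht ht1 h1 h2, b1,
              a5 x (hxρ (by simp)) y (hxρ (by simp)) hxy]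
      · intro T hT T1 hT1 hne
        rw [Function.onFun, disjoint_left]
        intro σ hσ hσ1
        rw [mem_image] at hσ hσ1
        obtain ⟨v, -, rfl⟩ := hσ
        obtain ⟨w, -, h⟩ := hσ1
        have : Sum.inr T1 ∈ g T v := by rw [← h]; exact mem_g_inr.2 rfl
        exact hne (mem_g_inr.1 this).symm
    rw [hA, hB]
    unfold fa
    ring
  · rw [disjoint_left]
    intro σ hσ hσ1
    rw [mem_image] at hσ
    rw [mem_biUnion] at hσ1
    obtain ⟨ρ, -, rfl⟩ := hσ
    obtain ⟨T, -, h⟩ := hσ1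
    rw [mem_image] at h
    obtain ⟨τ, -, h⟩ := h
    have : Sum.inr T ∈ o ρ := by rw [← h]; exact mem_g_inr.2 rfl
    exact mem_o_inr this

end Pool.Agent.H50En.Cn
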