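import Pool.Agent.H50En.Sch
import Pool.Agent.H50En.Jac
import Pool.Agent.H50En.Num

/-! Regge's formula. -/

namespace Pool.Agent.H50En

open Real Finset Pool.Agent.H50En.Sch Pool.Agent.H50En.Der

variable {V : Type} [DecidableEq V]

theorem mem_faces_erase {n : ℕ} {K : Finset (Finset V)} (hK : Pure n K) {T : Finset V}
    (hT : T ∈ K) {k l : V} (hk : k ∈ T) (hl : l ∈ T) (hkl : k ≠ l) :
    (T.erase k).erase l ∈ faces K (n - 1) := by
  unfold faces
  rw [mem_biUnion]
  refine ⟨T, hT, mem_powersetCard.2 ⟨(erase_subset _ _).trans (erase_subset _ _), ?_⟩⟩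
  rw [card_erase_of_mem (mem_erase.2 ⟨hkl.symm, hl⟩), card_erase_of_mem hk, hK T hT]
  omega

theorem exists_erase {n : ℕ} (hn : 3 ≤ n) {K : Finset (Finset V)} (hK : Pure n K) {σ : Finset V}
    (hσ : σ ∈ faces K (n - 1)) :
    ∃ T ∈ K, ∃ k ∈ T, ∃ l ∈ T, k ≠ l ∧ (T.erase k).erase l = σ := by
  unfold faces at hσ
  rw [mem_biUnion] at hσ
  obtain ⟨T, hT, h⟩ := hσ
  obtain ⟨h1, h2⟩ := mem_powersetCard.1 h
  have h3 : #(T \ σ) = 2 := by
    rw [card_sdiff_of_subset h1, hK T hT, h2]; omega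
  obtain ⟨k, l, hkl, he⟩ := card_eq_two.1 h3
  have hk : k ∈ T \ σ := by rw [he]; simp
  have hl : l ∈ T \ σ := by rw [he]; simp
  rw [mem_sdiff] at hk hl
  refine ⟨T, hT, k, hk.1, l, hl.1, hkl, ?_⟩
  ext v
  simp only [mem_erase]
  constructor
  · rintro ⟨a, b, c⟩
    by_contra hv
    have : v ∈ T \ σ := mem_sdiff.2 ⟨c, hv⟩
    rw [he] at this
    simp at this
    tauto
  · intro hv
    exact ⟨fun h => hl.2 (h ▸ hv), fun h => hk.2 (h ▸ hv), h1 hv⟩

theorem vol_update_of {z : Sym2 V → ℝ} {s : Finset V} {x y : V} (h : ¬ (x ∈ s ∧ y ∈ s)) (u : ℝ) :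
    vol (Function.update z s(x, y) u) s = vol z s := by
  have : CM (Function.update z s(x, y) u) s = CM z s := by
    ext a b
    unfold CM
    rcases a with _ | i <;> rcases b with _ | j <;> simp only [Matrix.of_apply]
    split_ifs with hij
    · rfl
    · rw [Function.update_of_ne]
      intro he
      rcases Sym2.eq_iff.1 he with ⟨h1, h2⟩ | ⟨h1, h2⟩
      · exact h ⟨h1 ▸ i.2, h2 ▸ j.2⟩
      · exact h ⟨h2 ▸ j.2, h1 ▸ i.2⟩
  unfold vol
  rw [this]

theorem regge {n : ℕ} (hn : 3 ≤ n) {K : Finset (Finset V)} (hK : Pure n K) {z : Sym2 V → ℝ}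
    (h1 : ∀ T ∈ K, (CM z T).det ≠ 0 ∧ (∀ k ∈ T, Q z T k k < 0) ∧
      ∀ k ∈ T, ∀ l ∈ T, k ≠ l → 0 < Q z T k k * Q z T l l - Q z T k l ^ 2)
    {x y : V} (hxy : x ≠ y) :
    HasDerivAt (fun u => totalCurv n K (Function.update z s(x, y) u)) (ein n K z x y) (z s(x, y)) := by
  have hupd : Function.update z s(x, y) (z s(x, y)) = z := Function.update_eq_self _ _
  have hth : ∀ T ∈ K, ∃ th : V → V → ℝ, (∀ k ∈ T, ∀ l ∈ T, k ≠ l →
      HasDerivAt (fun u => ang (Function.update z s(x, y) u) T k l) (th k l) (z s(x, y))) ∧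
      ∑ k ∈ T, ∑ l ∈ T, (if k ≠ l then √(Q z T k k * Q z T l l - Q z T k l ^ 2) * th k l else 0) = 0 := by
    intro T hT
    obtain ⟨hD, hneg, hpos⟩ := h1 T hT
    obtain ⟨P', hP', hsum⟩ := Q_deriv hD s(x, y)
    have h := schlaefli T (fun u => Q (Function.update z s(x, y) u) T) P' (z s(x, y)) hP'
      (by intro k _ l _; exact Q_symm _ _ _ _)
      (by intro k hk; simp only [hupd]; exact Q_sum hD hk) hsum
      (by intro k hk; simp only [hupd]; exact hneg k hk)
      (by intro k hk l hl hkl; simp only [hupd]; exact hpos k hk l hl hkl)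
    simp only [hupd] at h
    exact h
  choose! th hth1 hth2 using hth
  have hcurv : ∀ σ, HasDerivAt (fun u => curv K (Function.update z s(x, y) u) σ)
      (- ∑ T ∈ K, ∑ k ∈ T, ∑ l ∈ T,
        if k ≠ l ∧ (T.erase k).erase l = σ then th T k l / (4 * π) else 0) (z s(x, y)) := by
    intro σ
    unfold curv
    have h : HasDerivAt (fun u => ∑ T ∈ K, ∑ k ∈ T, ∑ l ∈ T,
        if k ≠ l ∧ (T.erase k).erase l = σ then ang (Function.update z s(x, y) u) T k l / (4 * π) else 0)
        (∑ T ∈ K, ∑ k ∈ T, ∑ l ∈ T,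
        if k ≠ l ∧ (T.erase k).erase l = σ then th T k l / (4 * π) else 0) (z s(x, y)) := by
      refine HasDerivAt.fun_sum fun T hT => HasDerivAt.fun_sum fun k hk =>
        HasDerivAt.fun_sum fun l hl => ?_
      split_ifs with hc
      · exact (hth1 T hT k hk l hl hc.1).div_const _
      · exact hasDerivAt_const _ _
    exact h.const_sub 1
  have hdet : ∀ σ ∈ faces K (n - 1), (CM z σ).det ≠ 0 := by
    intro σ hσ
    obtain ⟨T, hT, k, hk, l, hl, hkl, rfl⟩ := exists_erase hn hK hσ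
    obtain ⟨hD, hneg, hpos⟩ := h1 T hT
    have hj := jacobi hD hk hl hkl
    have h2 : 0 < |(CM z T).det| * |Q z T k k * Q z T l l - Q z T k l ^ 2| :=
      mul_pos (abs_pos.2 hD) (abs_pos.2 (hpos k hk l hl hkl).ne')
    rw [← hj] at h2
    exact abs_pos.1 h2
  have hvol : ∀ σ ∈ faces K (n - 1), HasDerivAt (fun u => vol (Function.update z s(x, y) u) σ)
      (if x ∈ σ ∧ y ∈ σ then vol z σ * Q z σ x y else 0) (z s(x, y)) := by
    intro σ hσ
    split_ifs with hc
    · exact vol_deriv (hdet σ hσ) hc.1 hc.2 hxy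
    · simp only [vol_update_of hc]
      exact hasDerivAt_const _ _
  have hmain := HasDerivAt.fun_sum (u := faces K (n - 1)) fun σ hσ => (hcurv σ).mul (hvol σ hσ)
  unfold totalCurv
  refine hmain.congr_deriv ?_
  simp only [hupd]
  rw [sum_add_distrib]
  have hz : ∑ σ ∈ faces K (n - 1), (- ∑ T ∈ K, ∑ k ∈ T, ∑ l ∈ T,
      if k ≠ l ∧ (T.erase k).erase l = σ then th T k l / (4 * π) else 0) * vol z σ = 0 := by
    have h2 : ∀ σ ∈ faces K (n - 1), (- ∑ T ∈ K, ∑ k ∈ T, ∑ l ∈ T,
      if k ≠ l ∧ (T.erase k).erase l = σ then th T k l / (4 * π) else 0) * vol z σ =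
      - ∑ T ∈ K, ∑ k ∈ T, ∑ l ∈ T, if (T.erase k).erase l = σ then
        (if k ≠ l then th T k l / (4 * π) * vol z ((T.erase k).erase l) else 0) else 0 := by
      intro σ _
      rw [neg_mul, sum_mul]
      congr 1
      refine sum_congr rfl fun T _ => ?_
      rw [sum_mul]
      refine sum_congr rfl fun k _ => ?_
      rw [sum_mul]
      refine sum_congr rfl fun l _ => ?_
      by_cases ha : k = l <;> by_cases hb : (T.erase k).erase l = σ <;> simp [ha, hb]
    rw [sum_congr rfl h2, sum_neg_distrib, neg_eq_zero, sum_comm]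
    refine sum_eq_zero fun T hT => ?_
    rw [sum_comm]
    have h3 : ∀ k ∈ T, ∑ σ ∈ faces K (n - 1), ∑ l ∈ T, (if (T.erase k).erase l = σ then
        (if k ≠ l then th T k l / (4 * π) * vol z ((T.erase k).erase l) else 0) else 0) =
        ∑ l ∈ T, √(|(CM z T).det| / (2 ^ (n - 1 - 1) * ((n - 1 - 1).factorial : ℝ) ^ 2)) / (4 * π) *
          (if k ≠ l then √(Q z T k k * Q z T l l - Q z T k l ^ 2) * th T k l else 0) := by
      intro k hk
      rw [sum_comm]
      refine sum_congr rfl fun l hl => ?_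
      rw [sum_ite_eq]
      by_cases hkl : k = l
      · simp [hkl]
      · rw [if_pos (mem_faces_erase hK hT hk hl hkl), if_pos hkl, if_pos hkl]
        have hv : vol z ((T.erase k).erase l) = √(|(CM z T).det| /
            (2 ^ (n - 1 - 1) * ((n - 1 - 1).factorial : ℝ) ^ 2)) *
            √(Q z T k k * Q z T l l - Q z T k l ^ 2) := by
          unfold vol
          have hc : #((T.erase k).erase l) = n - 1 := by
            rw [card_erase_of_mem (mem_erase.2 ⟨fun h => hkl h.symm, hl⟩), card_erase_of_mem hk,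
              hK T hT]
            omega
          rw [hc, jacobi (h1 T hT).1 hk hl hkl, ← Real.sqrt_mul (by positivity),
            abs_of_pos ((h1 T hT).2.2 k hk l hl hkl)]
          congr 1
          ring
        rw [hv]
        ring
    rw [sum_congr rfl h3]
    simp only [← mul_sum]
    rw [hth2 T hT, mul_zero]
  rw [hz, zero_add]
  unfold ein
  rw [sum_filter]
  refine sum_congr rfl fun σ _ => ?_
  split_ifs <;> simp

end Pool.Agent.H50En
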