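import Pool.Agent.H30ES.Acos

/-!
# Schläfli's formula in all dimensions, analytic form
-/

set_option autoImplicit false

namespace Pool.Agent.H50En.Sch

open Real Finset Pool.Agent.H30ES

/-- **A.** Schläfli's formula, analytic form: `P` is the family of matrices (inverse of the
Cayley–Menger matrix without the row and the column of index none). -/
theorem schlaefli {α : Type} (T : Finset α) [DecidableEq α] (P : ℝ → α → α → ℝ) (P' : α → α → ℝ)
    (x0 : ℝ) (hd : ∀ k ∈ T, ∀ l ∈ T, HasDerivAt (fun x => P x k l) (P' k l) x0)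
    (hs : ∀ k ∈ T, ∀ l ∈ T, P x0 k l = P x0 l k)
    (h0 : ∀ k ∈ T, ∑ l ∈ T, P x0 k l = 0) (h0' : ∀ k ∈ T, ∑ l ∈ T, P' k l = 0)
    (hneg : ∀ k ∈ T, P x0 k k < 0)
    (hpos : ∀ k ∈ T, ∀ l ∈ T, k ≠ l → 0 < P x0 k k * P x0 l l - P x0 k l ^ 2) :
    ∃ th : α → α → ℝ,
      (∀ k ∈ T, ∀ l ∈ T, k ≠ l →
        HasDerivAt (fun x => arccos (P x k l / √(P x k k * P x l l))) (th k l) x0) ∧
      ∑ k ∈ T, ∑ l ∈ T, (if k ≠ l then √(P x0 k k * P x0 l l - P x0 k l ^ 2) * th k l else 0) = 0 := by
  set N : α → α → ℝ := fun k l =>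
    P' k l - P x0 k l * (P' k k / (2 * P x0 k k) + P' l l / (2 * P x0 l l)) with hN
  refine ⟨fun k l => -(N k l) / √(P x0 k k * P x0 l l - P x0 k l ^ 2), ?_, ?_⟩
  · intro k hk l hl hkl
    have hG := hpos k hk l hl hkl
    have hk0 := hneg k hk
    have hl0 := hneg l hl
    have := acos (z := 1) (G := P x0 k k * P x0 l l - P x0 k l ^ 2) (hd k hk l hl)
      (hd k hk k hk).neg (hd l hl l hl).neg (by simpa using hk0) (by simpa using hl0) one_pos hG
      (by simp)
    convert! this using 1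
    · funext x
      simp
    · simp only [hN, Real.sqrt_one, one_mul, Pi.neg_apply]
      congr 3
      congr 1
      congr 1 <;> field_simp
  · have hkk : ∀ k ∈ T, N k k = 0 := by
      intro k hk
      have := (hneg k hk).ne
      simp only [hN]
      field_simp
      ring
    have e : ∀ k ∈ T, ∀ l ∈ T, (if k ≠ l then √(P x0 k k * P x0 l l - P x0 k l ^ 2) *
        (-(N k l) / √(P x0 k k * P x0 l l - P x0 k l ^ 2)) else 0) = -(N k l) := by
      intro k hk l hl
      split_ifs with h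
      · have : 0 < √(P x0 k k * P x0 l l - P x0 k l ^ 2) := Real.sqrt_pos.2 (hpos k hk l hl h)
        field_simp
      · push Not at h
        subst h
        rw [hkk k hk, neg_zero]
    rw [Finset.sum_congr rfl fun k hk => Finset.sum_congr rfl fun l hl => e k hk l hl]
    simp only [Finset.sum_neg_distrib, neg_eq_zero, hN, Finset.sum_sub_distrib, mul_add,
      Finset.sum_add_distrib]
    have s1 : ∑ k ∈ T, ∑ l ∈ T, P' k l = 0 := Finset.sum_eq_zero fun k hk => h0' k hk
    have s2 : ∑ k ∈ T, ∑ l ∈ T, P x0 k l * (P' k k / (2 * P x0 k k)) = 0 :=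
      Finset.sum_eq_zero fun k hk => by rw [← Finset.sum_mul, h0 k hk, zero_mul]
    have s3 : ∑ k ∈ T, ∑ l ∈ T, P x0 k l * (P' l l / (2 * P x0 l l)) = 0 := by
      rw [Finset.sum_comm]
      refine Finset.sum_eq_zero fun l hl => ?_
      rw [← Finset.sum_mul, Finset.sum_congr rfl fun k hk => hs k hk l hl, h0 l hl, zero_mul]
    rw [s1, s2, s3]
    ring

end Pool.Agent.H50En.Sch
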